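import Pool.Agent.H37.M2C.Thm
import Pool.Agent.H84.KBOX.RegT

/-!
# M2C, unconditional
-/

set_option autoImplicit false

namespace Pool.STPA

open Pool.PB Pool.FLF

/-- **M2C**, unconditional. -/
theorem m2c {m : ℕ} (hm : 2 ≤ m) (S : FCl m) (hS : SPS S (m - 2)) : M2C S :=
  m2c_thm Pool.KBX.reg_thm hm S hS

end Pool.STPA
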