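import Pool.Agent.H37.M2C.SpN

/-!
# From a closed label to exact polynomial labels

C1 (a closed label gives leaves) and the regularity of leaves (`REGStmt`) together.
-/

set_option autoImplicit false

namespace Pool.STPA

open Finset Real
open Pool.Agent.H49.Ent Pool.Agent.H32.Dense Pool.STK Pool.KA Pool.KSAT Pool.K2S Pool.KS3
open Pool.KAL Pool.PB Pool.KST Pool.FLF

variable {m J : ℕ}

lemma tc_chI (F : Fam m J) (i₁ : Fin m) (w L P : ℕ)
    (cl : ((Fin m → ℝ) × (Fin m → ℝ)) × F.ζ × ℕ → Fin m → ℤ) :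
    Pool.KBX.TC i₁ (slam F w) (trp F P) (pT L) (ppos L (chI i₁)) (lA w (chI i₁) cl)
      (lB (chI i₁)) := by
  intro ω
  unfold ppos pT lA lB chI
  simp

/-- **Exact polynomial labels from a closed label.** -/
theorem labE_thm (hREG : Pool.KBX.REGStmt) (m K : ℕ) {υ σ : ℝ} (hK : 3 ≤ K) (hυ : 0 < υ)
    (hυ4 : 4 ≤ ((K : ℝ) + 1) * υ) (hσ : 0 < σ) (hσ2 : σ ≤ 1 / 2) :
    ∃ (c : ℝ) (L₀ c₁ : ℕ) (C : ℝ), 0 < c ∧ 1 ≤ C ∧ ∀ (J : ℕ) (F : Fam m J) (i₁ : Fin m)
      (A : F.Ω → Prop) (h w L P r κ γ u S Q : ℕ) (δ ψ g e e' s : ℝ),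
      F.Tr → F.Tm e' → F.Rb e → Real.exp (-s) ≤ Pe F.p A → 0 ≤ e → 0 ≤ e' → 0 ≤ s →
      Ch F i₁ h A → Sp F (m - 2) ψ g A → 0 < δ → δ < 1 / 2 →
      1 / 2 ^ h + 2 * m * δ ≤ 1 / 2 ^ ⌊g * J⌋₊ → m.factorial * (6 : ℝ) ^ m ≤ δ ^ m * 2 ^ γ →
      1 ≤ κ → C ≤ ψ * J → w + L = P → P ≤ r → r ≤ J → Cls F i₁ r 1 w P A → L₀ ≤ L →
      C * (e + e' + s + (J / κ + γ + κ + 1 + Real.exp (-(ψ * J / 8)) * J)) ≤ c * L →
      υ * L ≤ u → 2 * u ≤ L → u + 1 ≤ L → σ * L ≤ S → Q + S + c₁ ≤ P →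
      ∃ A' : F.Ω → Prop, Sub A' A ∧ Real.exp (-(σ * L + C)) * Pe F.p A ≤ Pe F.p A' ∧
        Pool.GLM.LabS F i₁ r K (w + u + 1) Q S A' ∧
        (2 ≤ m → ∀ g' : ℝ, m * (1 / 2 ^ ⌊g' * J⌋₊) ≤ δ → Sp F (m - 2) (Real.log 4 / J) g' A') := by
  classical
  obtain ⟨C₁, hC₁, hc1⟩ := c1n_thm m
  obtain ⟨c, L₀, hc, hreg⟩ := hREG m K 2 υ σ hK (by norm_num) hυ hυ4 hσ hσ2
  have hm0 : (0 : ℝ) ≤ m := Nat.cast_nonneg m
  have hl9 : 0 < Real.log 9 := Real.log_pos (by norm_num)
  obtain ⟨c₁, hc₁⟩ : ∃ c₁ : ℕ, (m : ℝ) + 3 ≤ 2 ^ c₁ := by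
    obtain ⟨c₁, hc₁⟩ := pow_unbounded_of_one_lt ((m : ℝ) + 3) (one_lt_two : (1 : ℝ) < 2)
    exact ⟨c₁, hc₁.le⟩
  obtain ⟨C, hCdef⟩ : ∃ C, C = (1 + 8 * m) * (4 + m * Real.log 9 + C₁) + 8 * C₁ + 10 +
      2 * m * Real.log 9 := ⟨_, rfl⟩
  have hml9 : 0 ≤ m * Real.log 9 := by positivity
  have hmC : (0 : ℝ) ≤ m * (4 + m * Real.log 9 + C₁) :=
    mul_nonneg hm0 (by linarith only [hml9, hC₁])
  have hCC₁ : 2 * C₁ + m * Real.log 9 * 2 + 2 ≤ C := by
    rw [hCdef]
    linarith only [hmC, hml9, hC₁]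
  have hC16 : 8 * 2 ≤ C := by
    rw [hCdef]
    linarith only [hmC, hml9, hC₁]
  have hC1 : 1 ≤ C := by linarith only [hC16]
  refine ⟨c, L₀, c₁, C, hc, hC1, ?_⟩
  intro J F i₁ A h w L P r κ γ u S Q δ ψ g e e' s hTr hTm hRb hPA he he' hs hCh hSp hδ hδ2 hδg hγ
    hκ hCψ hwL hPr hr hCls hL₀ hcL hu hu2 hu1 hS hQ
  have hp := F.isLaw
  have hp0 := hp.nonneg
  have hPJ : P ≤ J := hPr.trans hr
  have hwJ : w ≤ J := by omega
  have hPA0 : 0 < Pe F.p A := (Real.exp_pos _).trans_le hPA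
  obtain ⟨z₀, hz₀⟩ := hTr
  have hTr' : F.Tr := ⟨z₀, hz₀⟩
  exact by
   obtain ⟨V, z, z', f, hzf⟩ := hCls
   -- the cells of the windows `w` and `w + u`
   obtain ⟨Aa, hAa, hPa, cl₀, hcl₀⟩ := cell_event F hwJ A
   obtain ⟨Ab, hAb, hPb, cl₁, hcl₁⟩ := cell_event F (w := w + u) (by omega) Aa
   obtain ⟨A₁, hA₁⟩ : ∃ A₁ : F.Ω → Prop, A₁ = fun ω => Ab ω ∧ F.p ω ≠ 0 := ⟨_, rfl⟩
   have hA₁b : ∀ ω, A₁ ω → Ab ω ∧ F.p ω ≠ 0 := fun ω hω => by rwa [hA₁] at hω
   have hA₁A : Sub A₁ A := fun ω hω => hAa ω (hAb ω (hA₁b ω hω).1)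
   have hP₁ : Pe F.p A / 9 ^ m ≤ Pe F.p A₁ := by
     rw [hA₁, Pe_ne_zero_and]
     have e9 : (9 : ℝ) ^ m = 3 ^ m * 3 ^ m := by rw [← mul_pow]; norm_num
     calc Pe F.p A / 9 ^ m = Pe F.p A / 3 ^ m / 3 ^ m := by rw [e9, div_div]
       _ ≤ Pe F.p Aa / 3 ^ m := div_le_div_of_nonneg_right hPa (by positivity)
       _ ≤ _ := hPb
   have h9 : (9 : ℝ) ^ m = Real.exp (m * Real.log 9) := by
     rw [mul_comm, Real.exp_mul, Real.exp_log (by norm_num), Real.rpow_natCast]
   have hP₁' : Real.exp (-(m * Real.log 9)) * Pe F.p A ≤ Pe F.p A₁ := by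
     refine le_trans (le_of_eq ?_) hP₁
     rw [h9, Real.exp_neg, div_eq_inv_mul]
   have hs₁ : Real.exp (-(s + m * Real.log 9)) ≤ Pe F.p A₁ := by
     refine le_trans ?_ hP₁'
     rw [neg_add, Real.exp_add, mul_comm]
     exact mul_le_mul_of_nonneg_left hPA (Real.exp_pos _).le
   have hSp₁ : Sp F (m - 2) (ψ / 2) g A₁ := by
     intro B hB hPB
     refine hSp B (fun ω hω => hA₁A ω (hB ω hω)) ?_
     refine le_trans ?_ hPB
     have e1 : Real.exp (-(ψ * J)) ≤ Real.exp (-(ψ / 2 * J)) * Real.exp (-(m * Real.log 9)) := by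
       rw [← Real.exp_add]
       refine Real.exp_le_exp.2 ?_
       have e2 : ψ / 2 * J = ψ * J / 2 := by ring
       rw [e2]
       linarith only [hCψ, hCC₁, hC₁]
     calc Real.exp (-(ψ * J)) * Pe F.p A ≤
           Real.exp (-(ψ / 2 * J)) * Real.exp (-(m * Real.log 9)) * Pe F.p A :=
           mul_le_mul_of_nonneg_right e1 hPA0.le
       _ = Real.exp (-(ψ / 2 * J)) * (Real.exp (-(m * Real.log 9)) * Pe F.p A) := by ring
       _ ≤ _ := mul_le_mul_of_nonneg_left hP₁' (Real.exp_pos _).le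
   -- the label
   exact by
    obtain ⟨zx, hzx⟩ : ∃ zx : (Fin m → ℤ) × (ℕ × F.ζ) → V × (ℕ × (Fin m → ℤ)),
        zx = fun ξ => (z ξ, celx J w r ξ) := ⟨_, rfl⟩
    obtain ⟨zs, hzs⟩ : ∃ zs : ((Fin m → ℝ) × (Fin m → ℝ)) × F.ζ × ℕ → V × (ℕ × (Fin m → ℤ)),
        zs = fun s => (z' s, (s.2.2, cl₀ s)) := ⟨_, rfl⟩
    have hcell : ∀ ω, (zx (ptr F r ω)).2 = (F.T1 w ω, F.X w ω) := by
      intro ω
      rw [hzx]
      exact celx_ptr F (by omega) ω
    have hzz : ∀ ω, A₁ ω → zx (ptr F r ω) = zs (slam F w ω) := by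
      intro ω hω
      have a1 := (hzf ω (hA₁A ω hω)).1
      refine Prod.ext ?_ ?_
      · rw [hzx, hzs]
        exact a1
      · rw [hcell, hzs]
        refine Prod.ext rfl ?_
        exact hcl₀ ω (hAb ω (hA₁b ω hω).1)
    have hcard := cls_card F i₁ (r := r) (P := P) z zx (fun a b hab => by
      rw [hzx] at hab
      exact (Prod.ext_iff.mp hab).1) f (A := A₁) (fun ω hω => (hzf ω (hA₁A ω hω)).2)
      (zeta := z₀) (fun ω hω => hz₀ ω (hA₁b ω hω).2)
    have hγ2 : m.factorial * (2 : ℝ) ^ m ≤ δ ^ m * 2 ^ γ := by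
      refine le_trans (mul_le_mul_of_nonneg_left ?_ (Nat.cast_nonneg _)) hγ
      exact pow_le_pow_left₀ (by norm_num) (by norm_num) m
    have hC₁ψ : C₁ ≤ ψ / 2 * J := by
      have e2 : ψ / 2 * J = ψ * J / 2 := by ring
      rw [e2]
      linarith only [hCψ, hCC₁, hml9]
    obtain ⟨A₂, hA₂pos, cl, μ, Gd, hA₂, hP₂, -, hncf, hGd, hSL⟩ := hc1 J F i₁ A₁ h w L P r κ γ 3 δ (ψ / 2) g
      e e' (s + m * Real.log 9) (V × (ℕ × (Fin m → ℤ))) zx zs Prod.snd hTr' hTm hRb hs₁ he he'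
      (by positivity) (Ch.hered F i₁ h A A₁ hA₁A hCh) hSp₁ hδ hδ2 hδg hγ2 hκ hC₁ψ hwL hPr hr
      (by norm_num) hzz (fun ω _ => hcell ω) hcard
    -- the leaves
    exact by
     set F' := Fam.sub F A₂ hA₂pos with hF'
     obtain ⟨ε, hε⟩ : ∃ ε, ε = Real.exp (-(ψ * J / 8)) := ⟨_, rfl⟩
     have hε' : Real.exp (-(ψ / 2 * J / 4)) = ε := by
       rw [hε]
       congr 1
       ring
     have hε0 : 0 ≤ ε := by rw [hε]; exact (Real.exp_pos _).le
     have hJ0 : (0 : ℝ) ≤ J := Nat.cast_nonneg J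
     have hLJ : (L : ℝ) ≤ J := by exact_mod_cast (by omega : L ≤ J)
     have hκ0 : (0 : ℝ) < κ := by exact_mod_cast (by omega : 0 < κ)
     have hW : Pool.KBX.W0 L κ γ ε ≤ J / κ + γ + κ + 1 + ε * J := by
       unfold Pool.KBX.W0
       have e1 : (L : ℝ) / κ ≤ J / κ := div_le_div_of_nonneg_right hLJ hκ0.le
       have e2 : ε * L ≤ ε * J := mul_le_mul_of_nonneg_left hLJ hε0
       linarith only [e1, e2]
     have hW1 : 1 ≤ (J : ℝ) / κ + γ + κ + 1 + ε * J := by
       have e1 : 0 ≤ (J : ℝ) / κ := by positivity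
       have e2 : 0 ≤ ε * J := mul_nonneg hε0 hJ0
       have e3 : (0 : ℝ) ≤ γ := Nat.cast_nonneg γ
       linarith only [hκ0, e1, e2]
     have hsum : (4 * e + e' + (s + m * Real.log 9) + C₁) +
         (4 * (Real.log (3 : ℕ) + 2 * (m * (4 * e + e' + (s + m * Real.log 9) + C₁) +
           C₁ * (J / κ + γ + κ + 1 + ε * J)) + 1)) + Pool.KBX.W0 L κ γ ε ≤ c * L := by
       refine le_trans ?_ hcL
       rw [← hε]
       have hl3 : Real.log (3 : ℕ) ≤ 2 := by
         have := Real.log_le_sub_one_of_pos (show (0 : ℝ) < 3 by norm_num)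
         push_cast
         linarith only [this]
       obtain ⟨W, hWd⟩ : ∃ W, W = (J : ℝ) / κ + γ + κ + 1 + ε * J := ⟨_, rfl⟩
       rw [← hWd] at hW hW1 ⊢
       have hD : 4 * e + e' + (s + m * Real.log 9) + C₁ ≤
           4 * (e + e' + s) + (m * Real.log 9 + C₁) * W := by
         have e1 : m * Real.log 9 + C₁ ≤ (m * Real.log 9 + C₁) * W :=
           le_mul_of_one_le_right (by linarith only [hC₁, hml9, hδ, hδ2]) hW1
         linarith only [he', hs, e1]
       obtain ⟨D, hDd⟩ : ∃ D, D = 4 * e + e' + (s + m * Real.log 9) + C₁ := ⟨_, rfl⟩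
       rw [← hDd] at hD ⊢
       have hmD : m * D ≤ m * (4 * (e + e' + s) + (m * Real.log 9 + C₁) * W) :=
         mul_le_mul_of_nonneg_left hD hm0
       have e2 : 0 ≤ e + e' + s := by linarith only [he, he', hs]
       have e3 : (0 : ℝ) ≤ m * (m * Real.log 9 + C₁) := mul_nonneg hm0 (by linarith only [hC₁, hml9, hδ, hδ2])
       have e4 : 0 ≤ m * W := mul_nonneg hm0 (by linarith only [hδ, hδ2, hW1])
       have e5 : 0 ≤ (m * (m * Real.log 9 + C₁)) * (e + e' + s) := mul_nonneg e3 e2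
       have e6 : 0 ≤ (m * Real.log 9 + C₁) * (e + e' + s) := mul_nonneg (by linarith only [hC₁, hml9, hδ, hδ2]) e2
       have e7 : 0 ≤ C₁ * (e + e' + s) := mul_nonneg (by linarith only [hC₁, hδ, hδ2]) e2
       have e8 : 0 ≤ m * Real.log 9 * (e + e' + s) := mul_nonneg hml9 e2
       have e9 : 0 ≤ m * Real.log 9 * W := mul_nonneg hml9 (by linarith only [hδ, hδ2, hW1])
       rw [hCdef]
       linarith only [he, he', hs, hδ, hδ2, hl3, hW1, hW, hD, hmD, e4, e5, e6, e7, e9]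
     exact by
      have hreg' : ∀ y, ∃ (Sy : Set ((Fin m → ℤ) × (ℕ × F.ζ)))
          (G : (Option (Fin m) → ℕ) → MvPolynomial (Fin m) ℝ), (∀ c, (G c).totalDegree ≤ K) ∧
          (law F'.p (fun ω => zx (ptr F' r ω)) y ≠ 0 → Gd y →
            Real.exp (-(σ * L)) ≤ Pe (Pool.Agent.H49.Ent.cond F'.p (fun ω => zx (ptr F' r ω)) y)
              (fun ω => trp F' P ω ∈ Sy) ∧
            ∀ ω : F'.Ω, F'.p ω ≠ 0 → zx (ptr F' r ω) = y → trp F' P ω ∈ Sy →
              |rp (2 ^ L) (ppos L (chI i₁)) (trp F' P ω) none - MvPolynomial.eval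
                (fun i => rp (2 ^ L) (ppos L (chI i₁)) (trp F' P ω) (some i))
                (Pool.KBX.Gc L u (ppos L (chI i₁)) G (trp F' P ω))| ≤ 2 * 2 ^ S / 2 ^ L ∧
              Pool.KBX.D1 (Pool.KBX.Gc L u (ppos L (chI i₁)) G (trp F' P ω))
                (Pool.KBX.cc L u (ppos L (chI i₁)) (trp F' P ω)) (1 / 2 ^ u) (2 ^ S)) := by
        intro y
        by_cases hy : law F'.p (fun ω => zx (ptr F' r ω)) y ≠ 0 ∧ Gd y
        · have hsl := hSL y hy.1 hy.2
          rw [hε'] at hsl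
          obtain ⟨Sy, L', s', G, h1, h2, h3, h4, h5, h6⟩ := hreg _ _ _ _ _ _ _ _ _ _ _ i₁ L κ γ u δ ε
            _ _ hsl (tc_chI F' i₁ w L P cl) hκ hL₀ (by
              have e6 : (3 : ℝ) * 2 = 6 := by norm_num
              rw [e6]
              exact hγ) hsum hu hu2
          refine ⟨Sy, G, h5.deg, fun _ _ => ⟨h1, fun ω hω hlab hωS => ?_⟩⟩
          have hq0 := F'.isLaw.nonneg
          have hpos : 0 < Pool.KAF.rs (Pool.Agent.H49.Ent.cond F'.p (fun ω => zx (ptr F' r ω)) y)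
              {ω | trp F' P ω ∈ Sy} ω := by
            have a1 : 0 < Pool.Agent.H49.Ent.cond F'.p (fun ω => zx (ptr F' r ω)) y ω := by
              unfold Pool.Agent.H49.Ent.cond
              rw [if_pos hlab]
              exact div_pos (lt_of_le_of_ne (hq0 ω) (Ne.symm hω))
                (lt_of_le_of_ne (law_nonneg hq0 _ y) (Ne.symm hy.1))
            have a2 : (ω ∈ {ω | trp F' P ω ∈ Sy}) = True := eq_true hωS
            have a3 : Pool.KAF.rs (Pool.Agent.H49.Ent.cond F'.p (fun ω => zx (ptr F' r ω)) y)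
                {ω | trp F' P ω ∈ Sy} ω =
                Pool.Agent.H49.Ent.cond F'.p (fun ω => zx (ptr F' r ω)) y ω /
                Pool.KAF.Pr (Pool.Agent.H49.Ent.cond F'.p (fun ω => zx (ptr F' r ω)) y)
                  {ω | trp F' P ω ∈ Sy} := if_pos a2
            rw [a3]
            exact div_pos a1 ((Real.exp_pos _).trans_le h1)
          have b1 := h5.near ω hpos
          have b2 := h6 ω hpos
          have b3 : L ≤ L' + S := by
            have : (L : ℝ) ≤ L' + S := by linarith only [hS, h3]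
            exact_mod_cast this
          have b4 : s' ≤ S := by
            have : (s' : ℝ) ≤ S := h4.trans hS
            exact_mod_cast this
          constructor
          · refine b1.trans ?_
            rw [div_le_div_iff₀ (by positivity) (by positivity), mul_assoc, ← pow_add]
            refine mul_le_mul_of_nonneg_left ?_ (by norm_num)
            exact pow_le_pow_right₀ (by norm_num) (by omega)
          · intro y' hy' i
            exact (b2 y' hy' i).trans (pow_le_pow_right₀ (by norm_num) b4)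
        · refine ⟨∅, fun _ => 0, fun _ => by simp, fun h1 h2 => absurd ⟨h1, h2⟩ hy⟩
      choose Sy Gy hdeg hy' using hreg'
      -- the event
      exact by
       obtain ⟨A', hA'⟩ : ∃ A' : F.Ω → Prop, A' = fun ω => A₂ ω ∧ (Gd (zx (ptr F r ω)) ∧
           trp F P ω ∈ Sy (zx (ptr F r ω))) := ⟨_, rfl⟩
       have hPA' : Real.exp (-(σ * L)) * (3 / 4) * Pe F.p A₂ ≤ Pe F.p A' := by
         have a1 := pe_fib F'.isLaw (fun ω => zx (ptr F' r ω)) Gd (fun y ω => trp F' P ω ∈ Sy y)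
           (c := Real.exp (-(σ * L))) (fun y h1 h2 => (hy' y h1 h2).1)
         have a2 : Pe F'.p (fun ω => Gd (zx (ptr F' r ω)) ∧ trp F' P ω ∈ Sy (zx (ptr F' r ω))) =
             Pe F.p A' / Pe F.p A₂ := by
           rw [Pe_eq, hA']
           exact sum_sp (p := F.p) (A := A₂) (fun ω => Gd (zx (ptr F r ω)) ∧
             trp F P ω ∈ Sy (zx (ptr F r ω))) _ (fun ω h => if_pos h) (fun ω h => if_neg h)
         have a3 : Real.exp (-(σ * L)) * (3 / 4) ≤ Pe F.p A' / Pe F.p A₂ := by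
           rw [← a2]
           refine le_trans ?_ a1
           exact mul_le_mul_of_nonneg_left hGd (Real.exp_pos _).le
         rwa [le_div_iff₀ hA₂pos] at a3
       have hA'A : Sub A' A := fun ω hω => by
         rw [hA'] at hω
         exact hA₁A ω (hA₂ ω hω.1)
       refine ⟨A', hA'A, ?_, ?_, ?_⟩
       · -- probability
         have b1 : Real.exp (-(σ * L + C)) ≤ Real.exp (-(σ * L)) * (3 / 4) * (Real.exp (-C₁) *
             Real.exp (-(m * Real.log 9))) := by
           have b2 : Real.exp (-1) ≤ 3 / 4 := by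
             have := Real.exp_one_gt_d9
             rw [Real.exp_neg, inv_le_comm₀ (Real.exp_pos _) (by norm_num)]
             linarith only [hδ, hδ2, this]
           calc Real.exp (-(σ * L + C)) ≤ Real.exp (-(σ * L) + -1 + (-C₁ + -(m * Real.log 9))) :=
                 Real.exp_le_exp.2 (by linarith only [hC₁, hCdef, hml9, hmC, hδ, hδ2])
             _ = Real.exp (-(σ * L)) * Real.exp (-1) * (Real.exp (-C₁) *
                 Real.exp (-(m * Real.log 9))) := by
                 rw [Real.exp_add, Real.exp_add, Real.exp_add]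
             _ ≤ _ := by
                 refine mul_le_mul_of_nonneg_right ?_ (by positivity)
                 exact mul_le_mul_of_nonneg_left b2 (Real.exp_pos _).le
         calc Real.exp (-(σ * L + C)) * Pe F.p A ≤ Real.exp (-(σ * L)) * (3 / 4) * (Real.exp (-C₁) *
               Real.exp (-(m * Real.log 9))) * Pe F.p A := mul_le_mul_of_nonneg_right b1 hPA0.le
           _ = Real.exp (-(σ * L)) * (3 / 4) * (Real.exp (-C₁) * (Real.exp (-(m * Real.log 9)) *
               Pe F.p A)) := by ring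
           _ ≤ Real.exp (-(σ * L)) * (3 / 4) * (Real.exp (-C₁) * Pe F.p A₁) := by
               refine mul_le_mul_of_nonneg_left ?_ (by positivity)
               exact mul_le_mul_of_nonneg_left hP₁' (Real.exp_pos _).le
           _ ≤ Real.exp (-(σ * L)) * (3 / 4) * Pe F.p A₂ :=
               mul_le_mul_of_nonneg_left hP₂ (by positivity)
           _ ≤ _ := hPA'
       · -- the labels
         have hwu : w + u + 1 ≤ J := by omega
         obtain ⟨cellx, hcellx⟩ : ∃ cellx : (Fin m → ℤ) × (ℕ × F.ζ) → Option (Fin m) → ℕ,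
             cellx = fun ξ => cel (2 ^ (L - u)) (ppos L (chI i₁)) (toP J r P ξ) := ⟨_, rfl⟩
         obtain ⟨cells, hcells⟩ : ∃ cells : ((Fin m → ℝ) × (Fin m → ℝ)) × F.ζ × ℕ →
             Option (Fin m) → ℕ, cells = fun s => cfn i₁ u (cl₁ (toW (w + u) (w + u + 1) s))
               (toW (w + u) (w + u + 1) s).2.2 := ⟨_, rfl⟩
         refine ⟨fun ξ => unG i₁ w (zx ξ).2 (Gy (zx ξ) (cellx ξ)),
           fun s => unG i₁ w (zs (toW w (w + u + 1) s)).2
             (Gy (zs (toW w (w + u + 1) s)) (cells s)), fun ξ => deg_unG i₁ w _ (hdeg _ _),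
           fun s => deg_unG i₁ w _ (hdeg _ _), ?_⟩
         intro ω hω
         rw [hA'] at hω
         obtain ⟨h₂, hgd, hS'⟩ := hω
         have h₁ : A₁ ω := hA₂ ω h₂
         have hb : Ab ω ∧ F.p ω ≠ 0 := hA₁b ω h₁
         have k1 : zs (toW w (w + u + 1) (slam F (w + u + 1) ω)) = zx (ptr F r ω) := by
           rw [toW_slam F (by omega) hwu, hzz ω h₁]
         have k2 : cells (slam F (w + u + 1) ω) = cellx (ptr F r ω) := by
           rw [hcells, hcellx]
           beta_reduce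
           rw [toW_slam F (by omega) hwu, toP_ptr F hPr, cel_cfn F i₁ hwL hPJ (by omega) ω,
             hcl₁ ω hb.1]
           rfl
         beta_reduce
         rw [k1, k2]
         have hlaw : law F'.p (fun ω => zx (ptr F' r ω)) (zx (ptr F r ω)) ≠ 0 := by
           have q0 := F'.isLaw.nonneg
           have q1 : 0 < F'.p ⟨ω, h₂⟩ := by
             change 0 < F.p ω / Pe F.p A₂
             exact div_pos (lt_of_le_of_ne (hp0 ω) (Ne.symm hb.2)) hA₂pos
           have q2 := law_pos q0 (fun ω => zx (ptr F' r ω)) q1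
           exact q2.ne'
         have k3 := (hy' (zx (ptr F r ω)) hlaw hgd).2 ⟨ω, h₂⟩ (by
           have q1 : 0 < F'.p ⟨ω, h₂⟩ := by
             change 0 < F.p ω / Pe F.p A₂
             exact div_pos (lt_of_le_of_ne (hp0 ω) (Ne.symm hb.2)) hA₂pos
           exact q1.ne') rfl hS'
         have k4 : cellx (ptr F r ω) = cel (2 ^ (L - u)) (ppos L (chI i₁)) (trp F P ω) := by
           rw [hcellx]
           beta_reduce
           rw [toP_ptr F hPr]
         have k5 := un_near F i₁ hwL hPJ hu1 (S := 2 ^ S) (ε := 2 * 2 ^ S / 2 ^ L) (by positivity) ω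
           k3.1 k3.2
         rw [hcell, k4]
         refine ⟨k5.1.trans ?_, fun b hb' => ⟨fun j => k5.2 b hb' j, by
           rw [sub_self, abs_zero]
           positivity⟩⟩
         rw [← add_div, div_div, div_le_div_iff₀ (by positivity) (by positivity), one_mul]
         have k6 : (2 : ℝ) ^ L * 2 ^ w = 2 ^ P := by rw [← pow_add]; congr 1; omega
         rw [k6]
         have k7 : (2 : ℝ) ^ Q * 2 ^ S * 2 ^ c₁ ≤ 2 ^ P := by
           rw [← pow_add, ← pow_add]
           exact pow_le_pow_right₀ (by norm_num) (by omega)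
         refine le_trans ?_ k7
         have k8 : (1 : ℝ) ≤ 2 ^ S := one_le_pow₀ (by norm_num)
         have k9 : 2 * (2 : ℝ) ^ S + (1 + m * 2 ^ S) ≤ 2 ^ S * 2 ^ c₁ := by
           calc 2 * (2 : ℝ) ^ S + (1 + m * 2 ^ S) ≤ 2 ^ S * (m + 3) := by
                 have e3 : (2 : ℝ) ^ S * (m + 3) = m * 2 ^ S + 3 * 2 ^ S := by ring
                 rw [e3]
                 linarith only [k8]
             _ ≤ _ := mul_le_mul_of_nonneg_left hc₁ (by positivity)
         calc (2 * (2 : ℝ) ^ S + (1 + m * 2 ^ S)) * 2 ^ Q ≤ (2 ^ S * 2 ^ c₁) * 2 ^ Q :=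
               mul_le_mul_of_nonneg_right k9 (by positivity)
           _ = _ := by ring
       · -- the fans
         intro hm2 g' hg'
         obtain ⟨φr, hφr⟩ := ptr_coarse F hr
         have hφ : ∀ ω, φr (Fam.pt F ω) = ptr F r ω := fun ω => (hφr ω).symm
         have hPA'0 : 0 < Pe F.p A' := lt_of_lt_of_le (by positivity) hPA'
         have hψ8 : Real.exp (-(ψ / 2 * J / 4)) < 1 / 4 := by
           have e1 : 8 * 2 ≤ ψ * J := by
             refine le_trans ?_ hCψ
             exact hC16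
           have e2 : Real.exp (-(ψ / 2 * J / 4)) ≤ Real.exp (-2) := by
             refine Real.exp_le_exp.2 ?_
             have e3 : ψ / 2 * J / 4 = ψ * J / 8 := by ring
             rw [e3]
             linarith only [e1]
           refine e2.trans_lt ?_
           rw [Real.exp_neg, one_div]
           refine inv_strictAnti₀ (by norm_num) ?_
           have e3 : Real.exp 2 = Real.exp 1 * Real.exp 1 := by rw [← Real.exp_add]; norm_num
           rw [e3]
           have h27 : (2.7 : ℝ) ≤ Real.exp 1 := by linarith only [Real.exp_one_gt_d9]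
           calc (4 : ℝ) < 2.7 * 2.7 := by norm_num
             _ ≤ Real.exp 1 * Real.exp 1 := mul_le_mul h27 h27 (by norm_num) (Real.exp_pos _).le
         refine sp_of_ncf F hm2 i₁ hA₂pos hPA'0 hncf (fun ξ => Gd (zx (φr ξ)) ∧
           toP J r P (φr ξ) ∈ Sy (zx (φr ξ))) ?_ hψ8 hg' ?_
         · intro ω
           rw [hφ, toP_ptr F hPr, hA']
         · rcases Nat.eq_zero_or_pos J with h0 | h0
           · have : (1 : ℝ) ≤ ψ * J := hC1.trans hCψ
             rw [h0] at this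
             simp at this
             linarith only [hwL, hPr, hr, hu1, h0]
           · exact h0

end Pool.STPA
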