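import Pool.Agent.H37.M2C.LabT
import Pool.Agent.H99.LST.Iface

/-!
# M2C: from closed labels to polynomial labels
-/

set_option autoImplicit false

namespace Pool.STPA

open Finset Real
open Pool.Agent.H49.Ent Pool.Agent.H32.Dense Pool.STK Pool.KA Pool.KSAT Pool.K2S Pool.KS3
open Pool.KAL Pool.PB Pool.KST Pool.FLF

variable {m J : ℕ}

/-- The time deficit in the window, on a large event. -/
lemma time_event (F : Fam m J) {e e' s : ℝ} (hTr : F.Tr) (hTm : F.Tm e') (hRb : F.Rb e)
    {A : F.Ω → Prop} (hA : 0 < Pe F.p A) (hs : Real.exp (-s) ≤ Pe F.p A) {w : ℕ} (hw : w ≤ J) :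
    ((J : ℝ) - w) * Real.log 2 -
      CH (Pool.Agent.H49.Ent.cond F.p A True) F.T (slam F w) ≤ 4 * e + e' + s := by
  have h1 := sub_Tm_of_reg hTr hTm hRb hA hs
  have h2 := time_fullr (Fam.sub F A hA) (w := w) (L := J - w) (r := J) (by omega) le_rfl h1
  have h3 : CH (Fam.sub F A hA).p (fun ω => pT (J - w) (trp (Fam.sub F A hA) J ω))
      (slam (Fam.sub F A hA) w) = CH (Pool.Agent.H49.Ent.cond F.p A True)
        (fun ω => pT (J - w) (trp F J ω)) (slam F w) :=
    sub_CH (fun ω => pT (J - w) (trp F J ω)) (slam F w)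
  rw [h3] at h2
  have h4 : CH (Pool.Agent.H49.Ent.cond F.p A True) (fun ω => pT (J - w) (trp F J ω))
      (slam F w) ≤ CH (Pool.Agent.H49.Ent.cond F.p A True) F.T (slam F w) := by
    have h5 : ∀ ω, pT (J - w) (trp F J ω) = F.T ω % 2 ^ (J - w) := by
      intro ω
      change F.T ω / 2 ^ (J - J) % 2 ^ (J - w) = F.T ω % 2 ^ (J - w)
      rw [Nat.sub_self, pow_zero, Nat.div_one]
    have hq := (isLaw_cond F.isLaw hA).nonneg
    exact CH_mono_left hq (fun ω ω' _ _ h => by
      have h7 : F.T ω = F.T ω' := (Prod.ext_iff.mp h).1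
      rw [h5, h5, h7])
  have h6 : ((J - w : ℕ) : ℝ) = (J : ℝ) - w := by
    rw [Nat.cast_sub hw]
  rw [h6] at h2
  linarith only [h2, h4]

/-- **M2 for one event.** Order of the constants: the chart, the mesh step, the class, the loss of
probability; then the scale `g` of spread; then the rate `ψ`, the mesh; then the defects. -/
theorem m2_event (hREG : Pool.KBX.REGStmt) {m K E : ℕ} (hm : 2 ≤ m) (hE : 0 < E)
    (hK : 16 * E + 3 ≤ K) {h₁ X κ' : ℝ} (hh₁ : 0 < h₁) (hX : 0 < X) (hκ' : 0 < κ') :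
    ∃ g : ℝ, 0 < g ∧ ∀ ψ : ℝ, 0 < ψ → ∀ N d : ℕ, 0 < d → N = E * d → ∃ τ : ℝ, 0 < τ ∧ ∃ J₀ : ℕ,
      ∀ J ≥ J₀, ∀ (F : Fam m J) (i₁ : Fin m) (A : F.Ω → Prop) (i p ρ : ℕ),
      i + 4 * d ≤ p → p < ρ → (ρ : ℝ) + X * N ≤ N → F.Tr → F.Tm (τ * J) → F.Rb (τ * J) →
      Real.exp (-(τ * J)) ≤ Pe F.p A → Ch F i₁ ⌊h₁ * J⌋₊ A → Sp F (m - 2) ψ g A →
      Cls F i₁ (ρ * (J / N)) 1 (i * (J / N)) (p * (J / N)) A →
      ∃ A' : F.Ω → Prop, Sub A' A ∧ Real.exp (-(κ' * J)) * Pe F.p A ≤ Pe F.p A' ∧
        Bl F i₁ N K ρ (i + d) (p - d) A' := by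
  classical
  have hE0 : (0 : ℝ) < E := by exact_mod_cast hE
  have hE1 : (1 : ℝ) ≤ E := by exact_mod_cast hE
  have hK0 : (1 : ℝ) ≤ K := by exact_mod_cast (by omega : 1 ≤ K)
  have hmr : (2 : ℝ) ≤ m := by exact_mod_cast hm
  have hυ4 : 4 ≤ ((K : ℝ) + 1) * (1 / (4 * E)) := by
    have : (16 : ℝ) * E + 3 ≤ K := by exact_mod_cast hK
    rw [mul_one_div, le_div_iff₀ (by positivity)]
    linarith only [this]
  obtain ⟨σ, hσ⟩ : ∃ σ : ℝ, σ = min (1 / 2) (min (κ' / 4) (1 / (96 * K * E))) := ⟨_, rfl⟩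
  have hσ0 : 0 < σ := by
    rw [hσ]
    exact lt_min (by norm_num) (lt_min (by positivity) (by positivity))
  have hσ1 : σ ≤ 1 / 2 := by rw [hσ]; exact min_le_left _ _
  have hσ2 : σ ≤ κ' / 4 := by rw [hσ]; exact (min_le_right _ _).trans (min_le_left _ _)
  have hσ3 : σ ≤ 1 / (96 * K * E) := by
    rw [hσ]; exact (min_le_right _ _).trans (min_le_right _ _)
  obtain ⟨c, L₀, c₁, C, hc, hC1, hlab⟩ := labE_thm hREG m K (υ := 1 / (4 * E)) (σ := σ) (by omega)
    (by positivity) hυ4 hσ0 hσ1
  obtain ⟨c₀, hlg⟩ := Pool.GLM.lab_grad m K hm (by omega)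
  obtain ⟨η, hη⟩ : ∃ η : ℝ, η = 2 * c / (C * E) := ⟨_, rfl⟩
  have hη0 : 0 < η := by rw [hη]; positivity
  obtain ⟨κ, hκ⟩ : ∃ κ : ℕ, κ = ⌈6 / η⌉₊ := ⟨_, rfl⟩
  have hκ6 : 6 / η ≤ κ := by rw [hκ]; exact Nat.le_ceil _
  have hκ1 : 1 ≤ κ := by
    have : (0 : ℝ) < κ := lt_of_lt_of_le (by positivity) hκ6
    exact_mod_cast this
  obtain ⟨cγ, hcγ⟩ : ∃ cγ : ℕ, (m.factorial : ℝ) * 6 ^ m * (4 * m) ^ m ≤ 2 ^ cγ := by
    obtain ⟨c', hc'⟩ := pow_unbounded_of_one_lt ((m.factorial : ℝ) * 6 ^ m * (4 * m) ^ m)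
      (one_lt_two : (1 : ℝ) < 2)
    exact ⟨c', hc'.le⟩
  exact by
   obtain ⟨cm, hcm⟩ : ∃ cm : ℕ, (4 : ℝ) * m * m ≤ 2 ^ cm := by
     obtain ⟨c', hc'⟩ := pow_unbounded_of_one_lt ((4 : ℝ) * m * m) (one_lt_two : (1 : ℝ) < 2)
     exact ⟨c', hc'.le⟩
   obtain ⟨g, hg⟩ : ∃ g : ℝ, g = min (min (η / (6 * m)) (h₁ / 4)) (min (X / 4) (1 / (16 * E))) :=
     ⟨_, rfl⟩
   have hg0 : 0 < g := by
     rw [hg]
     exact lt_min (lt_min (by positivity) (by positivity)) (lt_min (by positivity) (by positivity))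
   have hg1 : g ≤ η / (6 * m) := by rw [hg]; exact (min_le_left _ _).trans (min_le_left _ _)
   have hg2 : g ≤ h₁ / 4 := by rw [hg]; exact (min_le_left _ _).trans (min_le_right _ _)
   have hg3 : g ≤ X / 4 := by rw [hg]; exact (min_le_right _ _).trans (min_le_left _ _)
   have hg4 : g ≤ 1 / (16 * E) := by rw [hg]; exact (min_le_right _ _).trans (min_le_right _ _)
   refine ⟨g, hg0, fun ψ hψ N d hd hNd => ?_⟩
   obtain ⟨τ, hτ⟩ : ∃ τ : ℝ, τ = min (η / 18) (σ / 6) := ⟨_, rfl⟩
   have hτ0 : 0 < τ := by rw [hτ]; exact lt_min (by positivity) (by positivity)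
   have hτ1 : τ ≤ η / 18 := by rw [hτ]; exact min_le_left _ _
   have hτ2 : τ ≤ σ / 6 := by rw [hτ]; exact min_le_right _ _
   obtain ⟨J₀, hJ₀⟩ : ∃ J₀ : ℕ, J₀ = ⌈(1 : ℝ) + 8 * N + E * L₀ + 6 * (cγ + κ + 1) / η +
       48 / (ψ * η) + C / ψ + 2 * E * (1 + c₁) + 2 * E * (3 + c₀) + E * (6 * K * C + c₀) +
       2 * (c₀ + 1) / h₁ + (cm + 1) / g + 2 * (C + 1) / κ' + 2 * E⌉₊ := ⟨_, rfl⟩
   refine ⟨τ, hτ0, J₀, fun J hJ F i₁ A i p ρ hip hpρ hρ hTr hTm hRb hPA hCh hSp hCls => ?_⟩
   have hJr : (1 : ℝ) + 8 * N + E * L₀ + 6 * (cγ + κ + 1) / η +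
       48 / (ψ * η) + C / ψ + 2 * E * (1 + c₁) + 2 * E * (3 + c₀) + E * (6 * K * C + c₀) +
       2 * (c₀ + 1) / h₁ + (cm + 1) / g + 2 * (C + 1) / κ' + 2 * E ≤ J := by
     have h1 : (J₀ : ℝ) ≤ J := by exact_mod_cast hJ
     refine le_trans ?_ h1
     rw [hJ₀]
     exact Nat.le_ceil _
   have p1 : (0 : ℝ) ≤ 8 * N := by positivity
   have p2 : (0 : ℝ) ≤ E * L₀ := by positivity
   exact by
    have p3 : (0 : ℝ) ≤ 6 * (cγ + κ + 1) / η := by positivity
    have p4 : (0 : ℝ) ≤ 48 / (ψ * η) := by positivity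
    have p5 : (0 : ℝ) ≤ C / ψ := by positivity
    have p6 : (0 : ℝ) ≤ 2 * E * (1 + c₁) := by positivity
    have p7 : (0 : ℝ) ≤ 2 * E * (3 + c₀) := by positivity
    have p8 : (0 : ℝ) ≤ E * (6 * K * C + c₀) := by positivity
    have p9 : (0 : ℝ) ≤ 2 * (c₀ + 1) / h₁ := by positivity
    have p10 : (0 : ℝ) ≤ (cm + 1) / g := by positivity
    have p11 : (0 : ℝ) ≤ 2 * (C + 1) / κ' := by positivity
    have p12 : (0 : ℝ) ≤ 2 * E := by positivity
    have hJ1 : (1 : ℝ) ≤ J := by linarith only [hE1, hσ1, hτ0, hτ2, hJr, p2, p3, p4, p5, p6, p7, p8, p9, p10, p11]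
    have hJ0 : (0 : ℝ) < J := by linarith only [hE1, hσ1, hτ0, hτ2, hJr, p2, p3, p4, p5, p6, p7, p8, p9, p10, p11]
    have q1 : 8 * (N : ℝ) ≤ J := by linarith only [hE1, hσ1, hτ0, hτ2, hJr, p2, p3, p4, p5, p6, p7, p8, p9, p10, p11]
    have q2 : (E : ℝ) * L₀ ≤ J := by linarith only [hE1, hσ1, hτ0, hτ2, hJr, p3, p4, p5, p6, p7, p8, p9, p10, p11]
    have q3 : 6 * ((cγ : ℝ) + κ + 1) ≤ J * η := by
      rw [← div_le_iff₀ hη0]; linarith only [hE1, hσ1, hτ0, hτ2, hJr, p2, p4, p5, p6, p7, p8, p9, p10, p11]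
    have q4 : 48 ≤ J * (ψ * η) := by
      rw [← div_le_iff₀ (by positivity)]; linarith only [hE1, hσ1, hτ0, hτ2, hJr, p2, p3, p5, p6, p7, p8, p9, p10, p11]
    have q5 : C ≤ ψ * J := by
      rw [mul_comm, ← div_le_iff₀ hψ]; linarith only [hE1, hσ1, hτ0, hτ2, hJr, p2, p3, p4, p6, p7, p8, p9, p10, p11]
    have q6 : 2 * (E : ℝ) * (1 + c₁) ≤ J := by linarith only [hE1, hσ1, hτ0, hτ2, hJr, p2, p3, p4, p5, p7, p8, p9, p10, p11]
    have q7 : 2 * (E : ℝ) * (3 + c₀) ≤ J := by linarith only [hE1, hσ1, hτ0, hτ2, hJr, p2, p3, p4, p5, p6, p8, p9, p10, p11]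
    have q8 : (E : ℝ) * (6 * K * C + c₀) ≤ J := by linarith only [hE1, hσ1, hτ0, hτ2, hJr, p2, p3, p4, p5, p6, p7, p9, p10, p11]
    have q9 : 2 * ((c₀ : ℝ) + 1) ≤ J * h₁ := by
      rw [← div_le_iff₀ hh₁]; linarith only [hE1, hσ1, hτ0, hτ2, hJr, p2, p3, p4, p5, p6, p7, p8, p10, p11]
    have q10 : (cm : ℝ) + 1 ≤ J * g := by
      rw [← div_le_iff₀ hg0]; linarith only [hE1, hσ1, hτ0, hτ2, hJr, p2, p3, p4, p5, p6, p7, p8, p9, p11]
    have q11 : 2 * (C + 1) ≤ J * κ' := by
      rw [← div_le_iff₀ hκ']; linarith only [hE1, hσ1, hτ0, hτ2, hJr, p2, p3, p4, p5, p6, p7, p8, p9, p10]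
    have q12 : 2 * (E : ℝ) ≤ J := by linarith only [hσ1, hτ0, hτ2, hJr, p2, p3, p4, p5, p6, p7, p8, p9, p10, p11]
    exact by
     clear p1 p2 p3 p4 p5 p6 p7 p8 p9 p10 p11 p12 hJr hJ hJ₀ hσ hτ hg hκ hυ4
     -- the mesh
     have hN0 : 0 < N := by rw [hNd]; exact Nat.mul_pos hE hd
     obtain ⟨u₀, hu₀⟩ : ∃ u₀, u₀ = J / N := ⟨_, rfl⟩
     rw [← hu₀] at hCls
     have hNu : N * u₀ ≤ J := by rw [hu₀]; exact Nat.mul_div_le J N
     have hNu' : J < N * (u₀ + 1) := by rw [hu₀]; exact Nat.lt_mul_div_succ J hN0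
     obtain ⟨D, hD⟩ : ∃ D : ℝ, D = ((d * u₀ : ℕ) : ℝ) := ⟨_, rfl⟩
     have hND : (N : ℝ) * u₀ = E * D := by
       rw [hD, hNd]
       push_cast
       ring
     have hED : E * D ≤ J := by
       rw [← hND]
       exact_mod_cast hNu
     have hED' : 7 * (J : ℝ) ≤ 8 * (E * D) := by
       have h1 : (J : ℝ) < N * (u₀ + 1) := by exact_mod_cast hNu'
       have h2 : (N : ℝ) * (u₀ + 1) = E * D + N := by rw [← hND]; ring
       rw [h2] at h1
       linarith only [q1, h1]
     have hD0 : 0 < D := by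
       by_contra hcon
       have : E * D ≤ 0 := mul_nonpos_of_nonneg_of_nonpos hE0.le (not_lt.1 hcon)
       linarith only [hE1, hσ1, hτ0, hτ2, q12, hED', this]
     have hdu : 1 ≤ d * u₀ := by
       have : (0 : ℝ) < ((d * u₀ : ℕ) : ℝ) := by rw [← hD]; exact hD0
       exact_mod_cast this
     obtain ⟨w, hw⟩ : ∃ w, w = i * u₀ := ⟨_, rfl⟩
     obtain ⟨P, hP⟩ : ∃ P, P = p * u₀ := ⟨_, rfl⟩
     obtain ⟨r, hr⟩ : ∃ r, r = ρ * u₀ := ⟨_, rfl⟩
     exact by
      obtain ⟨L, hL⟩ : ∃ L, L = (p - i) * u₀ := ⟨_, rfl⟩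
      rw [← hw, ← hP, ← hr] at hCls
      have hwL : w + L = P := by
        rw [hw, hL, hP, ← Nat.add_mul]
        congr 1
        omega
      have hL4 : 4 * (d * u₀) ≤ L := by
        rw [hL, ← Nat.mul_assoc]
        exact Nat.mul_le_mul_right _ (by omega)
      have hL4r : 4 * D ≤ L := by
        rw [hD]
        exact_mod_cast hL4
      have hPr : P ≤ r := by
        rw [hP, hr]
        exact Nat.mul_le_mul_right _ (by omega)
      have hidr : (i + d) * u₀ ≤ r := by
        rw [hr]
        exact Nat.mul_le_mul_right _ (by omega)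
      have hX1 : 0 ≤ 1 - X := by
        have h1 : (0 : ℝ) ≤ ρ := Nat.cast_nonneg ρ
        have h2 : (0 : ℝ) < N := by exact_mod_cast hN0
        have h3 : 0 ≤ (1 - X) * N := by linarith only [hρ]
        exact nonneg_of_mul_nonneg_left h3 h2
      have hrX : (r : ℝ) ≤ (1 - X) * J := by
        have h1 : (ρ : ℝ) ≤ (1 - X) * N := by linarith only [hρ]
        have h2 : (r : ℝ) = ρ * u₀ := by rw [hr]; push_cast; ring
        rw [h2]
        calc (ρ : ℝ) * u₀ ≤ (1 - X) * N * u₀ := mul_le_mul_of_nonneg_right h1 (Nat.cast_nonneg _)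
          _ = (1 - X) * (N * u₀) := by ring
          _ ≤ (1 - X) * J := by
              refine mul_le_mul_of_nonneg_left ?_ hX1
              exact_mod_cast hNu
      exact by
       have hrJ : r ≤ J := by
         have h1 : (r : ℝ) ≤ J := by
           refine hrX.trans ?_
           have : 0 ≤ X * J := by positivity
           linarith only [this]
         exact_mod_cast h1
       have hLJ : (L : ℝ) ≤ J := by
         have : L ≤ J := by omega
         exact_mod_cast this
       have hL0 : (0 : ℝ) ≤ L := Nat.cast_nonneg L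
       -- the small cells and the gradient
       obtain ⟨u, hu⟩ : ∃ u : ℕ, u = ⌈1 / (4 * (E : ℝ)) * L⌉₊ := ⟨_, rfl⟩
       obtain ⟨S, hS⟩ : ∃ S : ℕ, S = ⌈σ * L⌉₊ := ⟨_, rfl⟩
       have hu1 : 1 / (4 * (E : ℝ)) * L ≤ u := by rw [hu]; exact Nat.le_ceil _
       have hu2 : 4 * (E : ℝ) * u ≤ L + 4 * E := by
         have h1 : (u : ℝ) < 1 / (4 * (E : ℝ)) * L + 1 := by
           rw [hu]; exact Nat.ceil_lt_add_one (by positivity)
         have h2 : 4 * (E : ℝ) * u ≤ 4 * E * (1 / (4 * (E : ℝ)) * L + 1) :=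
           mul_le_mul_of_nonneg_left h1.le (by positivity)
         have h3 : 4 * (E : ℝ) * (1 / (4 * (E : ℝ)) * L + 1) = L + 4 * E := by field_simp
         linarith only [h2, h3]
       have hS1 : σ * L ≤ S := by rw [hS]; exact Nat.le_ceil _
       have hσE : 96 * (K : ℝ) * E * σ ≤ 1 := by
         have := mul_le_mul_of_nonneg_left hσ3 (by positivity : (0 : ℝ) ≤ 96 * K * E)
         rw [mul_one_div, div_self (by positivity)] at this
         exact this
       have hKES : K * (E * (σ * J)) ≤ J / 96 := by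
         have h1 : 96 * (K : ℝ) * E * σ * J ≤ 1 * J := mul_le_mul_of_nonneg_right hσE hJ0.le
         linarith only [h1]
       have hESJ : E * (σ * J) ≤ J / 96 := by
         have h1 : 1 * (E * (σ * J)) ≤ K * (E * (σ * J)) :=
           mul_le_mul_of_nonneg_right hK0 (by positivity)
         linarith only [hKES, h1]
       exact by
        have hσLJ : σ * L ≤ σ * J := mul_le_mul_of_nonneg_left hLJ hσ0.le
        have hS2 : (S : ℝ) ≤ σ * J + 1 := by
          have h1 : (S : ℝ) < σ * L + 1 := by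
            rw [hS]; exact Nat.ceil_lt_add_one (by positivity)
          linarith only [hσLJ, h1]
        have hES : E * (S : ℝ) ≤ J / 96 + E := by
          have h1 := mul_le_mul_of_nonneg_left hS2 hE0.le
          have h2 : (E : ℝ) * (σ * J + 1) = E * (σ * J) + E := by ring
          linarith only [hESJ, h1]
        have key8 : u + 1 + S + c₀ ≤ d * u₀ := by
          have h1 : E * ((u : ℝ) + 1 + S + c₀) ≤ E * D := by
            have e1 : E * ((u : ℝ) + 1 + S + c₀) = (4 * (E : ℝ) * u) / 4 + E + E * S + E * c₀ := by ring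
            rw [e1]
            linarith only [hE1, hσ1, hτ0, hτ2, q7, q12, hED', hLJ, hu2, hES]
          have h2 : (u : ℝ) + 1 + S + c₀ ≤ D := le_of_mul_le_mul_left h1 hE0
          rw [hD] at h2
          exact_mod_cast h2
        have key7 : S + c₁ ≤ d * u₀ := by
          have h1 : E * ((S : ℝ) + c₁) ≤ E * D := by
            have e1 : E * ((S : ℝ) + c₁) = E * S + E * c₁ := by ring
            rw [e1]
            linarith only [hE1, hσ1, hτ0, hτ2, q6, q12, hED', hES]
          have h2 : (S : ℝ) + c₁ ≤ D := le_of_mul_le_mul_left h1 hE0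
          rw [hD] at h2
          exact_mod_cast h2
        have hLge4 : (4 : ℝ) ≤ L := by
          have : 4 ≤ L := by omega
          exact_mod_cast this
        have huL : 4 * (u : ℝ) ≤ L + 4 := by
          have h1 : E * (4 * (u : ℝ)) ≤ E * (L + 4) := by
            have h2 : (L : ℝ) ≤ E * L := le_mul_of_one_le_left hL0 hE1
            linarith only [hu2, h2]
          exact le_of_mul_le_mul_left h1 hE0
        exact by
         have hu2L : 2 * u ≤ L := by
           have : 2 * (u : ℝ) ≤ L := by linarith only [hLge4, huL]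
           exact_mod_cast this
         have hu1L : u + 1 ≤ L := by
           have : (u : ℝ) + 1 ≤ L := by linarith only [hσ1, hτ0, hτ2, hLge4, huL]
           exact_mod_cast this
         have hL₀ : L₀ ≤ L := by
           have h1 : E * (L₀ : ℝ) ≤ E * L := by
             have h2 : E * (4 * D) ≤ E * L := mul_le_mul_of_nonneg_left hL4r hE0.le
             linarith only [hσ1, hτ0, hτ2, q2, hED', hLJ, hLge4, h2]
           have h2 : (L₀ : ℝ) ≤ L := le_of_mul_le_mul_left h1 hE0
           exact_mod_cast h2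
         -- the scale of spread
         obtain ⟨G, hG⟩ : ∃ G : ℕ, G = ⌊g * J⌋₊ := ⟨_, rfl⟩
         have hG1 : (G : ℝ) ≤ g * J := by rw [hG]; exact Nat.floor_le (by positivity)
         obtain ⟨δ, hδ⟩ : ∃ δ : ℝ, δ = 1 / (4 * m * 2 ^ G) := ⟨_, rfl⟩
         have hδ0 : 0 < δ := by rw [hδ]; positivity
         have hδ2 : δ < 1 / 2 := by
           rw [hδ]
           refine one_div_lt_one_div_of_lt (by norm_num) ?_
           have h1 : (1 : ℝ) ≤ 2 ^ G := one_le_pow₀ (by norm_num)
           have h2 : (8 : ℝ) ≤ 4 * m := by linarith only [hmr]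
           calc (2 : ℝ) < 8 * 1 := by norm_num
             _ ≤ 4 * m * 2 ^ G := mul_le_mul h2 h1 zero_le_one (by positivity)
         have hGh : G + 1 ≤ ⌊h₁ * J⌋₊ := by
           refine Nat.le_floor ?_
           push_cast
           have h1 : g * J ≤ h₁ / 4 * J := mul_le_mul_of_nonneg_right hg2 hJ0.le
           have h2 : (0 : ℝ) ≤ c₀ := Nat.cast_nonneg _
           linarith only [hσ1, hτ0, hτ2, q10, hG1, h1]
         exact by
          have hδg : 1 / 2 ^ ⌊h₁ * J⌋₊ + 2 * m * δ ≤ 1 / 2 ^ ⌊g * J⌋₊ := by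
            rw [← hG, hδ]
            have h1 : (1 : ℝ) / 2 ^ ⌊h₁ * J⌋₊ ≤ 1 / 2 ^ (G + 1) :=
              one_div_le_one_div_of_le (by positivity) (pow_le_pow_right₀ (by norm_num) hGh)
            have h2 : 2 * (m : ℝ) * (1 / (4 * m * 2 ^ G)) = 1 / 2 ^ (G + 1) := by
              rw [pow_succ]
              field_simp
              norm_num
            have h3 : (1 : ℝ) / 2 ^ (G + 1) + 1 / 2 ^ (G + 1) = 1 / 2 ^ G := by
              rw [pow_succ]
              field_simp
              norm_num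
            linarith only [h1, h2, h3]
          obtain ⟨γ, hγ⟩ : ∃ γ : ℕ, γ = m * G + cγ := ⟨_, rfl⟩
          have hγ' : m.factorial * (6 : ℝ) ^ m ≤ δ ^ m * 2 ^ γ := by
            have h1 : δ ^ m * 2 ^ γ = 2 ^ cγ / (4 * m) ^ m := by
              rw [hδ, hγ, pow_add, div_pow, one_pow, mul_pow, ← pow_mul, mul_comm G m]
              field_simp
            rw [h1, le_div_iff₀ (by positivity)]
            exact hcγ
          have hmain : C * (τ * J + τ * J + τ * J + (J / κ + γ + κ + 1 +
              Real.exp (-(ψ * J / 8)) * J)) ≤ c * L := by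
            have a1 : 3 * (τ * J) ≤ η * J / 6 := by
              have := mul_le_mul_of_nonneg_right hτ1 hJ0.le
              linarith only [this]
            have a2 : (J : ℝ) / κ ≤ η * J / 6 := by
              have hκ0 : (0 : ℝ) < κ := by exact_mod_cast hκ1
              rw [div_le_iff₀ hκ0]
              have h1 : 6 ≤ κ * η := by
                rw [div_le_iff₀ hη0] at hκ6
                exact hκ6
              have h2 : 6 * (J : ℝ) ≤ κ * η * J := mul_le_mul_of_nonneg_right h1 hJ0.le
              linarith only [h2]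
            have a3 : (γ : ℝ) ≤ η * J / 6 + cγ := by
              rw [hγ]
              push_cast
              have h1 : (m : ℝ) * G ≤ m * (g * J) := mul_le_mul_of_nonneg_left hG1 (by positivity)
              have h2 : (m : ℝ) * g ≤ η / 6 := by
                have := mul_le_mul_of_nonneg_left hg1 (by positivity : (0 : ℝ) ≤ m)
                have e1 : (m : ℝ) * (η / (6 * m)) = η / 6 := by field_simp
                linarith only [this, e1]
              have h3 : (m : ℝ) * g * J ≤ η / 6 * J := mul_le_mul_of_nonneg_right h2 hJ0.le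
              linarith only [h1, h3]
            have a4 : Real.exp (-(ψ * J / 8)) * J ≤ η * J / 6 := by
              have h1 : Real.exp (-(ψ * J / 8)) ≤ η / 6 := by
                have h2 : 0 < ψ * J / 8 := by positivity
                have h3 : ψ * J / 8 ≤ Real.exp (ψ * J / 8) := by
                  have := Real.add_one_le_exp (ψ * J / 8)
                  linarith only [hσ1, hτ0, hτ2, this]
                rw [Real.exp_neg]
                refine (inv_anti₀ h2 h3).trans ?_
                rw [inv_le_comm₀ h2 (by positivity)]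
                have h4 : (η / 6)⁻¹ = 6 / η := by
                  rw [inv_div]
                rw [h4, div_le_iff₀ hη0]
                linarith only [q4]
              have := mul_le_mul_of_nonneg_right h1 hJ0.le
              linarith only [this]
            have a5 : C * (η * J) ≤ c * L := by
              have h1 : C * (η * J) = 2 * c * (J / E) := by
                rw [hη]
                field_simp
              have h2 : (J : ℝ) / E ≤ L / 2 := by
                rw [div_le_iff₀ hE0]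
                have h3 : E * (4 * D) ≤ E * L := mul_le_mul_of_nonneg_left hL4r hE0.le
                linarith only [hσ1, hτ0, hτ2, hED', hLJ, hLge4, h3]
              rw [h1]
              have h4 := mul_le_mul_of_nonneg_left h2 (by positivity : (0 : ℝ) ≤ 2 * c)
              linarith only [h4]
            refine le_trans (mul_le_mul_of_nonneg_left ?_ (by linarith only [hσ1, hC1, hτ0, hτ2] : (0 : ℝ) ≤ C)) a5
            have h0 : 0 ≤ η * J := by positivity
            linarith only [hσ1, hτ0, hτ2, q3, a1, a2, a3, a4]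
          exact by
           obtain ⟨Q, hQ⟩ : ∃ Q : ℕ, Q = P - S - c₁ := ⟨_, rfl⟩
           have hduP : d * u₀ ≤ P := by omega
           have hQP : Q + S + c₁ ≤ P := by omega
           obtain ⟨A₁, hA₁, hPA₁, hLabS, hSpN⟩ := hlab J F i₁ A ⌊h₁ * J⌋₊ w L P r κ γ u S Q δ ψ g (τ * J)
             (τ * J) (τ * J) hTr hTm hRb hPA (by positivity) (by positivity) (by positivity) hCh hSp hδ0 hδ2
             hδg hγ' hκ1 q5 hwL hPr hrJ hCls hL₀ hmain hu1 hu2L hu1L hS1 hQP
           have hPA0 : 0 < Pe F.p A := (Real.exp_pos _).trans_le hPA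
           have hPA₁0 : 0 < Pe F.p A₁ := lt_of_lt_of_le (by positivity) hPA₁
           have hs₃ : Real.exp (-(τ * J + (σ * L + C))) ≤ Pe F.p A₁ := by
             refine le_trans ?_ hPA₁
             rw [neg_add, Real.exp_add, mul_comm]
             exact mul_le_mul_of_nonneg_left hPA (Real.exp_pos _).le
           have hwl : w + u + 1 ≤ J := by omega
           have htime := time_event F hTr hTm hRb hPA₁0 hs₃ hwl
           obtain ⟨θ, hθ⟩ : ∃ θ : ℝ, θ = 4 * (τ * J) + τ * J + (τ * J + (σ * L + C)) := ⟨_, rfl⟩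
           rw [← hθ] at htime
           have hθ0 : 0 < θ := by
             rw [hθ]
             have h1 : 0 < τ * J := by positivity
             have h2 : 0 ≤ σ * L := by positivity
             linarith only [hσ1, hC1, hτ0, hτ2, h1, h2]
           have hθ1 : θ ≤ 2 * (σ * J) + C := by
             rw [hθ]
             have h1 : 6 * (τ * J) ≤ σ * J := by
               have := mul_le_mul_of_nonneg_right hτ2 hJ0.le
               linarith only [this]
             linarith only [hσLJ, h1]
           obtain ⟨G', hG'⟩ : ∃ G' : ℕ, G' = ⌊2 * g * J⌋₊ := ⟨_, rfl⟩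
           have hG'1 : (G' : ℝ) ≤ 2 * (g * J) := by
             rw [hG']
             refine (Nat.floor_le (by positivity)).trans (le_of_eq (by ring))
           exact by
            have hG'2 : G + cm ≤ G' := by
              rw [hG']
              refine Nat.le_floor ?_
              push_cast
              have h1 : (cm : ℝ) ≤ J * g := by linarith only [hσ1, hτ0, hτ2, q10]
              linarith only [hσ1, hτ0, hτ2, q10, hG1]
            have hg' : m * (1 / 2 ^ ⌊2 * g * J⌋₊) ≤ δ := by
              rw [← hG', hδ, mul_one_div, div_le_div_iff₀ (by positivity) (by positivity), one_mul]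
              calc (m : ℝ) * (4 * m * 2 ^ G) = 2 ^ G * (4 * m * m) := by ring
                _ ≤ 2 ^ G * 2 ^ cm := mul_le_mul_of_nonneg_left hcm (by positivity)
                _ = 2 ^ (G + cm) := by rw [pow_add]
                _ ≤ 2 ^ G' := pow_le_pow_right₀ (by norm_num) hG'2
            have hQr : (Q : ℝ) = P - S - c₁ := by
              have : Q + S + c₁ = P := by omega
              have h1 : (Q : ℝ) + S + c₁ = P := by exact_mod_cast this
              linarith only [h1]
            have hk8 : (u : ℝ) + 1 + S + c₀ ≤ D := by rw [hD]; exact_mod_cast key8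
            have hk7 : (S : ℝ) + c₁ ≤ D := by rw [hD]; exact_mod_cast key7
            have hPr' : (w : ℝ) + L = P := by exact_mod_cast hwL
            have n1 : ((w + u + 1 : ℕ) : ℝ) + ⌊2 * g * J⌋₊ + 6 * K * θ + c₀ ≤ Q := by
              rw [← hG', hQr]
              push_cast
              have h1 : 6 * (K : ℝ) * θ + G' + c₀ ≤ 2 * D := by
                have h2 : E * (6 * (K : ℝ) * θ + G' + c₀) ≤ E * (2 * D) := by
                  have e1 : 6 * (K : ℝ) * E * θ ≤ 6 * K * E * (2 * (σ * J) + C) :=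
                    mul_le_mul_of_nonneg_left hθ1 (by positivity)
                  have e2 : (E : ℝ) * G' ≤ J / 8 := by
                    have e3 : (E : ℝ) * G' ≤ E * (2 * (g * J)) := mul_le_mul_of_nonneg_left hG'1 hE0.le
                    have e4 : E * g ≤ 1 / 16 := by
                      have := mul_le_mul_of_nonneg_left hg4 hE0.le
                      have e5 : (E : ℝ) * (1 / (16 * E)) = 1 / 16 := by field_simp
                      linarith only [this, e5]
                    have e6 := mul_le_mul_of_nonneg_right e4 hJ0.le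
                    linarith only [e3, e6]
                  linarith only [hσ1, hτ0, hτ2, q8, hED', hLJ, hKES, hLge4, e1, e2]
                exact le_of_mul_le_mul_left h2 hE0
              have h3 : (0 : ℝ) ≤ S := Nat.cast_nonneg _
              have h4 : (0 : ℝ) ≤ c₀ := Nat.cast_nonneg _
              linarith only [hL4r, hk8, hk7, hPr', h1]
            exact by
             have n2 : ⌊2 * g * J⌋₊ + c₀ ≤ ⌊h₁ * J⌋₊ := by
               rw [← hG']
               refine Nat.le_floor ?_
               push_cast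
               have h1 : g * J ≤ h₁ / 4 * J := mul_le_mul_of_nonneg_right hg2 hJ0.le
               linarith only [hσ1, hτ0, hτ2, q9, hG'1, h1]
             have hidu : w + u + 1 + S + c₀ ≤ (i + d) * u₀ := by
               rw [Nat.add_mul, ← hw]
               omega
             have n3 : ⌊2 * g * J⌋₊ + (w + u + 1) + S + c₀ ≤ J := by
               rw [← hG']
               have h1 : g * J ≤ X / 4 * J := mul_le_mul_of_nonneg_right hg3 hJ0.le
               have h2 : ((w + u + 1 + S + c₀ : ℕ) : ℝ) ≤ r := by exact_mod_cast hidu.trans hidr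
               have h3 : ((G' + (w + u + 1) + S + c₀ : ℕ) : ℝ) ≤ J := by
                 have e1 : ((G' + (w + u + 1) + S + c₀ : ℕ) : ℝ) = G' + ((w + u + 1 + S + c₀ : ℕ) : ℝ) := by
                   push_cast
                   ring
                 rw [e1]
                 have h4 : 0 ≤ X * J := by positivity
                 linarith only [hσ1, hτ0, hτ2, q10, hrX, hG'1, h1, h2]
               exact_mod_cast h3
             have hl4 : Real.log 4 ≤ Real.log 4 / J * J := by
               rw [div_mul_cancel₀ _ hJ0.ne']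
             obtain ⟨A₂, hA₂, hPA₂, hLab⟩ := hlg J F i₁ r (w + u + 1) Q S ⌊h₁ * J⌋₊ (Real.log 4 / J) (2 * g) θ
               A₁ hPA₁0 hLabS (Ch.hered F i₁ _ A A₁ hA₁ hCh) (hSpN hm (2 * g) hg') hl4 hθ0 htime hrJ
               (by omega) n1 n2 n3
             refine ⟨A₂, fun ω hω => hA₁ ω (hA₂ ω hω), ?_, ?_⟩
             · have h1 : Real.exp (-(κ' * J)) ≤ Real.exp (-(σ * L + C)) * (1 / 2) := by
                 have h2 : Real.exp (-1) ≤ 1 / 2 := by
                   have := Real.exp_one_gt_d9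
                   rw [Real.exp_neg, one_div]
                   exact inv_anti₀ (by norm_num) (by linarith only [hσ1, hτ0, hτ2, this])
                 calc Real.exp (-(κ' * J)) ≤ Real.exp (-(σ * L + C) + -1) := by
                       refine Real.exp_le_exp.2 ?_
                       have h3 : σ * J ≤ κ' / 4 * J := mul_le_mul_of_nonneg_right hσ2 hJ0.le
                       have h4 : 0 ≤ κ' * J := by positivity
                       linarith only [hσ1, hC1, hτ0, hτ2, q11, hσLJ, h3]
                   _ = Real.exp (-(σ * L + C)) * Real.exp (-1) := Real.exp_add _ _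
                   _ ≤ _ := mul_le_mul_of_nonneg_left h2 (Real.exp_pos _).le
               calc Real.exp (-(κ' * J)) * Pe F.p A ≤ Real.exp (-(σ * L + C)) * (1 / 2) * Pe F.p A :=
                     mul_le_mul_of_nonneg_right h1 hPA0.le
                 _ = (Real.exp (-(σ * L + C)) * Pe F.p A) / 2 := by ring
                 _ ≤ Pe F.p A₁ / 2 := div_le_div_of_nonneg_right hPA₁ (by norm_num)
                 _ ≤ _ := by linarith only [hPA₂]
             · unfold Bl
               rw [← hu₀, ← hr]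
               refine Lab.mono (le_refl r) (le_refl K) hidu (by omega) (hidr.trans hrJ) ?_ hLab
               have h1 : (p - d) * u₀ + d * u₀ = P := by
                 rw [← Nat.add_mul, hP]
                 congr 1
                 omega
               omega

end Pool.STPA
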