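import Pool.Agent.H37.M2C.Un

/-!
# Auxiliary facts: labels, cells, probabilities
-/

set_option autoImplicit false

namespace Pool.STPA

open Finset Real
open Pool.Agent.H49.Ent Pool.Agent.H32.Dense Pool.STK Pool.KA Pool.KSAT Pool.K2S Pool.KS3
open Pool.KAL Pool.PB Pool.KST Pool.FLF

variable {m J : ℕ}

/-- An event which is large for most values of a label is large. -/
lemma pe_fib {Ω Z : Type} [Fintype Ω] {q : Ω → ℝ} (hq : IsLaw q) (lab : Ω → Z) (good : Z → Prop)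
    (E : Z → Ω → Prop) {c : ℝ}
    (h : ∀ y, law q lab y ≠ 0 → good y → c ≤ Pe (Pool.Agent.H49.Ent.cond q lab y) (E y)) :
    c * Pe q (fun ω => good (lab ω)) ≤ Pe q (fun ω => good (lab ω) ∧ E (lab ω) ω) := by
  classical
  have h0 := hq.nonneg
  have h1 : Pe q (fun ω => good (lab ω)) =
      ∑ y ∈ univ.image lab, law q lab y * (if good y then 1 else 0) := by
    rw [Pe_eq, ← sum_mul_eq_sum_image q lab (fun y => if good y then (1 : ℝ) else 0)]
    refine Finset.sum_congr rfl fun ω _ => ?_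
    by_cases h2 : good (lab ω) <;> simp [h2]
  have h3 : Pe q (fun ω => good (lab ω) ∧ E (lab ω) ω) =
      ∑ y ∈ univ.image lab, ∑ ω, if lab ω = y ∧ good y ∧ E y ω then q ω else 0 := by
    rw [Pe_eq, ← Finset.sum_fiberwise_of_maps_to
      (g := lab) (t := univ.image lab) (fun ω _ => Finset.mem_image_of_mem lab (Finset.mem_univ ω))]
    refine Finset.sum_congr rfl fun y _ => ?_
    rw [Finset.sum_filter]
    refine Finset.sum_congr rfl fun ω _ => ?_
    by_cases h4 : lab ω = y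
    · rw [if_pos h4, ← h4]
      simp
    · rw [if_neg h4, if_neg (fun h5 => h4 h5.1)]
  rw [h1, h3, Finset.mul_sum]
  refine Finset.sum_le_sum fun y _ => ?_
  by_cases hg : good y
  · rw [if_pos hg, mul_one]
    have h5 : (∑ ω, if lab ω = y ∧ good y ∧ E y ω then q ω else 0) =
        ∑ ω, if lab ω = y ∧ E y ω then q ω else 0 := by
      refine Finset.sum_congr rfl fun ω _ => ?_
      simp [hg]
    rw [h5]
    by_cases hy : law q lab y = 0
    · rw [hy, mul_zero]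
      refine Finset.sum_nonneg fun ω _ => ?_
      split_ifs
      exacts [h0 ω, le_rfl]
    · have hy0 : 0 < law q lab y := lt_of_le_of_ne (law_nonneg h0 lab y) (Ne.symm hy)
      have h6 := h y hy hg
      have h7 : Pe (Pool.Agent.H49.Ent.cond q lab y) (E y) =
          (∑ ω, if lab ω = y ∧ E y ω then q ω else 0) / law q lab y := by
        rw [Pe_eq, Finset.sum_div]
        refine Finset.sum_congr rfl fun ω _ => ?_
        unfold Pool.Agent.H49.Ent.cond
        by_cases a1 : lab ω = y <;> by_cases a2 : E y ω <;> simp [a1, a2]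
      rw [h7, le_div_iff₀ hy0] at h6
      exact h6
  · rw [if_neg hg, mul_zero, mul_zero]
    refine Finset.sum_nonneg fun ω _ => ?_
    split_ifs
    exacts [h0 ω, le_rfl]

/-- The small cell as a function of the digits. -/
def cfn {m : ℕ} (i₁ : Fin m) (u : ℕ) (X : Fin m → ℤ) (T : ℕ) (o : Option (Fin m)) : ℕ :=
  (chI i₁ o).elim (T % 2 ^ u) (fun i => (X i % 2 ^ u).toNat)

lemma cel_cfn (F : Fam m J) (i₁ : Fin m) {w L P u : ℕ} (hwL : w + L = P) (hP : P ≤ J) (hu : u ≤ L)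
    (ω : F.Ω) : cel (2 ^ (L - u)) (ppos L (chI i₁)) (trp F P ω) =
      cfn i₁ u (F.X (w + u) ω) (F.T1 (w + u) ω) := by
  have e1 : L = u + (L - u) := by omega
  funext o
  unfold cel cfn ppos
  cases chI i₁ o with
  | none =>
    simp only [Option.elim]
    have h1 : (trp F P ω).2.1 = F.T ω / 2 ^ (J - P) := rfl
    have h2 : F.T1 (w + u) ω = F.T ω / 2 ^ (J - (w + u)) := rfl
    rw [h1, h2]
    have h3 := mod_div_pow (F.T ω / 2 ^ (J - P)) u (L - u)
    rw [← e1] at h3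
    rw [h3, Nat.div_div_eq_div_mul, ← pow_add]
    congr 3
    omega
  | some i =>
    simp only [Option.elim]
    have h1 : (trp F P ω).1 i = F.X P ω i := rfl
    rw [h1]
    have h3 := emod_div_pow (F.X P ω i) u (L - u)
    rw [← e1] at h3
    rw [h3]
    have h4 : F.X (w + u) ω i = F.X P ω i / 2 ^ (L - u) := by
      have e0 : (2 : ℝ) ^ P = 2 ^ (w + u) * 2 ^ (L - u) := by
        rw [← pow_add]; congr 1; omega
      have e2 : (2 : ℝ) ^ (w + u) * F.x ω i = (2 ^ P * F.x ω i) / ((2 ^ (L - u) : ℕ) : ℝ) := by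
        rw [e0]
        push_cast
        field_simp
      have e3 : F.X (w + u) ω i = ⌊(2 : ℝ) ^ (w + u) * F.x ω i⌋ := rfl
      have e4 : F.X P ω i = ⌊(2 : ℝ) ^ P * F.x ω i⌋ := rfl
      rw [e3, e4, e2, Int.floor_div_natCast]
      push_cast
      rfl
    rw [h4]

/-- The point with the time of resolution `P` is a function of the point of resolution `r`. -/
def toP {m : ℕ} {ζ : Type} (J r P : ℕ) (ξ : (Fin m → ℤ) × (ℕ × ζ)) : (Fin m → ℤ) × (ℕ × ζ) :=
  (fun i => ξ.1 i / 2 ^ (r - P), (ξ.2.1 / 2 ^ (J - P), ξ.2.2))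

lemma toP_ptr (F : Fam m J) {P r : ℕ} (hP : P ≤ r) (ω : F.Ω) :
    toP J r P (ptr F r ω) = trp F P ω := by
  refine Prod.ext ?_ rfl
  funext i
  have e0 : (2 : ℝ) ^ r = 2 ^ P * 2 ^ (r - P) := by
    rw [← pow_add]; congr 1; omega
  have e2 : (2 : ℝ) ^ P * F.x ω i = (2 ^ r * F.x ω i) / ((2 ^ (r - P) : ℕ) : ℝ) := by
    rw [e0]
    push_cast
    field_simp
  change F.X r ω i / 2 ^ (r - P) = F.X P ω i
  have e3 : F.X P ω i = ⌊(2 : ℝ) ^ P * F.x ω i⌋ := rfl
  have e4 : F.X r ω i = ⌊(2 : ℝ) ^ r * F.x ω i⌋ := rfl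
  rw [e3, e4, e2, Int.floor_div_natCast]
  push_cast
  rfl

/-- The window of length `2 ^ (-w)` as a function of the window of length `2 ^ (-w')`. -/
def toW {ζ : Type} (w w' : ℕ) (s : ((Fin m → ℝ) × (Fin m → ℝ)) × ζ × ℕ) :
    ((Fin m → ℝ) × (Fin m → ℝ)) × ζ × ℕ := (s.1, s.2.1, s.2.2 / 2 ^ (w' - w))

lemma toW_slam (F : Fam m J) {w w' : ℕ} (h : w ≤ w') (h' : w' ≤ J) (ω : F.Ω) :
    toW w w' (slam F w' ω) = slam F w ω := (slam_coarse F h h' ω).symm

/-- A closed label with one sheet: three values of the coordinate. -/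
lemma cls_card (F : Fam m J) (i₁ : Fin m) {r P : ℕ} {V U : Type}
    (z : (Fin m → ℤ) × (ℕ × F.ζ) → V) (zx : (Fin m → ℤ) × (ℕ × F.ζ) → U)
    (hzx : ∀ a b, zx a = zx b → z a = z b) (f : V → ℕ × F.ζ → (Fin m → ℤ) → Fin 1 → ℝ)
    {A : F.Ω → Prop}
    (h : ∀ ω, A ω → ∃ l : Fin 1, |F.x ω i₁ -
      f (z (ptr F r ω)) (F.W ω) (Function.update (F.X r ω) i₁ 0) l| ≤ 1 / 2 ^ P) {zeta : F.ζ}
    (hz : ∀ ω, A ω → F.Z ω = zeta) (ω : F.Ω) (hω : A ω) :
    (open Classical in ((univ.filter (fun ω' => A ω' ∧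
      zx (ptr F r ω') = zx (ptr F r ω) ∧ F.T ω' = F.T ω ∧
      ∀ j ≠ i₁, F.X r ω' j = F.X r ω j)).image (fun ω' => F.X P ω' i₁)).card) ≤ 3 := by
  classical
  obtain ⟨v, hv⟩ : ∃ v, v = f (z (ptr F r ω)) (F.W ω) (Function.update (F.X r ω) i₁ 0) 0 :=
    ⟨_, rfl⟩
  have h1 : ((univ.filter (fun ω' => A ω' ∧ zx (ptr F r ω') = zx (ptr F r ω) ∧ F.T ω' = F.T ω ∧
      ∀ j ≠ i₁, F.X r ω' j = F.X r ω j)).image (fun ω' => F.X P ω' i₁)) ⊆
      Finset.Icc (⌊(2 : ℝ) ^ P * v⌋ - 1) (⌊(2 : ℝ) ^ P * v⌋ + 1) := by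
    intro x hx
    obtain ⟨ω', hω', rfl⟩ := Finset.mem_image.1 hx
    obtain ⟨-, a1, a2', a3, a4⟩ := Finset.mem_filter.1 hω'
    have a2 := hzx _ _ a2'
    obtain ⟨l, hl⟩ := h ω' a1
    have b1 : l = 0 := Subsingleton.elim _ _
    have b2 : F.W ω' = F.W ω := by
      unfold Fam.W
      rw [a3, hz ω' a1, hz ω hω]
    have b3 : Function.update (F.X r ω') i₁ 0 = Function.update (F.X r ω) i₁ 0 := by
      funext j
      by_cases hj : j = i₁
      · subst hj
        simp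
      · rw [Function.update_of_ne hj, Function.update_of_ne hj]
        exact a4 j hj
    rw [b1, a2, b2, b3, ← hv] at hl
    have b4 : |(2 : ℝ) ^ P * F.x ω' i₁ - 2 ^ P * v| ≤ ((1 : ℕ) : ℝ) := by
      have hP : (0 : ℝ) < 2 ^ P := by positivity
      rw [← mul_sub, abs_mul, abs_of_pos hP]
      calc (2 : ℝ) ^ P * |F.x ω' i₁ - v| ≤ 2 ^ P * (1 / 2 ^ P) :=
            mul_le_mul_of_nonneg_left hl hP.le
        _ = ((1 : ℕ) : ℝ) := by
            field_simp
            norm_num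
    have b5 := floor_near b4
    have b6 : F.X P ω' i₁ = ⌊(2 : ℝ) ^ P * F.x ω' i₁⌋ := rfl
    rw [Finset.mem_Icc, b6]
    rw [abs_le] at b5
    push_cast at b5
    constructor <;> omega
  refine (Finset.card_le_card h1).trans ?_
  rw [Int.card_Icc]
  omega

end Pool.STPA
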