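import Pool.Agent.H37.M2C.Pre

/-!
# Spread on small point events

If the fans at all exact points of an event are not concentrated near hyperplanes, then an event
given by exact points inside it, however small, has spread fans.
-/

set_option autoImplicit false

namespace Pool.STPA

open Finset Real
open Pool.Agent.H49.Ent Pool.Agent.H32.Dense Pool.STK Pool.KA Pool.KSAT Pool.K2S Pool.KS3
open Pool.KAL Pool.PB Pool.KST Pool.FLF

variable {m J : ℕ}

/-- A hyperplane of the base directions which contains an affine `(m - 2)`-plane. -/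
lemma exists_cov (hm : 2 ≤ m) (i₁ : Fin m) (s : (Fin m → ℝ) × (Fin (m - 2) → Fin m → ℝ)) (ρ : ℝ) :
    ∃ u : Fin m → ℝ, (∃ i, 1 ≤ |u i|) ∧ ∀ D : Fin m → ℝ,
      (∃ c : Fin (m - 2) → ℝ, ∀ i, |D i - s.1 i - ∑ l, c l * s.2 l i| ≤ ρ) →
      |∑ i, u i * (if i = i₁ then 1 else D i)| ≤ m * ρ := by
  classical
  -- a covector orthogonal to the directions of the plane
  let f : (Fin m → ℝ) →ₗ[ℝ] (Option (Fin (m - 2)) → ℝ) :=
    LinearMap.pi fun o => o.elim (LinearMap.proj i₁)
      (fun l => ∑ j, s.2 l j • (LinearMap.proj j : (Fin m → ℝ) →ₗ[ℝ] ℝ))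
  have hker : LinearMap.ker f ≠ ⊥ := by
    refine LinearMap.ker_ne_bot_of_finrank_lt ?_
    rw [Module.finrank_fintype_fun_eq_card, Module.finrank_fintype_fun_eq_card]
    simp only [Fintype.card_option, Fintype.card_fin]
    omega
  obtain ⟨v, hv, hv0⟩ := (Submodule.ne_bot_iff _).1 hker
  rw [LinearMap.mem_ker] at hv
  have hv1 : v i₁ = 0 := by
    have := congrFun hv none
    simpa [f] using this
  have hv2 : ∀ l, ∑ j, v j * s.2 l j = 0 := by
    intro l
    have := congrFun hv (some l)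
    simp only [f, LinearMap.pi_apply, Option.elim, LinearMap.sum_apply, LinearMap.smul_apply,
      LinearMap.proj_apply, smul_eq_mul, Pi.zero_apply] at this
    rw [← this]
    exact Finset.sum_congr rfl fun j _ => mul_comm _ _
  have : Nonempty (Fin m) := ⟨i₁⟩
  obtain ⟨j₀, -, hj₀⟩ := Finset.exists_max_image univ (fun j => |v j|) Finset.univ_nonempty
  have hj₀' : 0 < |v j₀| := by
    rw [abs_pos]
    intro h0
    apply hv0
    funext j
    have := hj₀ j (Finset.mem_univ j)
    rw [h0, abs_zero] at this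
    exact abs_eq_zero.1 (le_antisymm this (abs_nonneg _))
  have hj₁ : j₀ ≠ i₁ := by
    rintro rfl
    rw [hv1, abs_zero] at hj₀'
    exact lt_irrefl _ hj₀'
  obtain ⟨ν, hν⟩ : ∃ ν : Fin m → ℝ, ν = fun j => v j / |v j₀| := ⟨_, rfl⟩
  have hν1 : ∀ j, |ν j| ≤ 1 := by
    intro j
    rw [hν]
    beta_reduce
    rw [abs_div, abs_abs, div_le_one hj₀']
    exact hj₀ j (Finset.mem_univ j)
  have hν2 : |ν j₀| = 1 := by
    rw [hν]
    beta_reduce
    rw [abs_div, abs_abs, div_self hj₀'.ne']
  have hν3 : ν i₁ = 0 := by rw [hν]; simp [hv1]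
  have hν4 : ∀ l, ∑ j, ν j * s.2 l j = 0 := by
    intro l
    rw [hν]
    have : ∑ j, v j / |v j₀| * s.2 l j = (∑ j, v j * s.2 l j) / |v j₀| := by
      rw [Finset.sum_div]
      exact Finset.sum_congr rfl fun j _ => by ring
    beta_reduce
    rw [this, hv2, zero_div]
  refine ⟨Function.update ν i₁ (-∑ j, ν j * s.1 j), ⟨j₀, ?_⟩, ?_⟩
  · rw [Function.update_of_ne hj₁, hν2]
  · rintro D ⟨c, hc⟩
    have h1 : ∑ i, Function.update ν i₁ (-∑ j, ν j * s.1 j) i * (if i = i₁ then 1 else D i) =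
        ∑ i, ν i * (D i - s.1 i) := by
      have a1 : ∀ i, Function.update ν i₁ (-∑ j, ν j * s.1 j) i * (if i = i₁ then 1 else D i) =
          ν i * D i + (if i = i₁ then -∑ j, ν j * s.1 j else 0) := by
        intro i
        by_cases hi : i = i₁
        · subst hi
          rw [Function.update_self, if_pos rfl, if_pos rfl, hν3]
          ring
        · rw [Function.update_of_ne hi, if_neg hi, if_neg hi, add_zero]
      rw [Finset.sum_congr rfl fun i _ => a1 i, Finset.sum_add_distrib,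
        Finset.sum_ite_eq' univ i₁ (fun _ => -∑ j, ν j * s.1 j), if_pos (Finset.mem_univ _),
        ← sub_eq_add_neg, ← Finset.sum_sub_distrib]
      exact Finset.sum_congr rfl fun i _ => by ring
    have h2 : ∑ i, ν i * (D i - s.1 i) = ∑ i, ν i * (D i - s.1 i - ∑ l, c l * s.2 l i) := by
      have b1 : ∑ i, ν i * ∑ l, c l * s.2 l i = 0 := by
        calc ∑ i, ν i * ∑ l, c l * s.2 l i = ∑ i, ∑ l, c l * (ν i * s.2 l i) := by
              refine Finset.sum_congr rfl fun i _ => ?_
              rw [Finset.mul_sum]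
              exact Finset.sum_congr rfl fun l _ => by ring
          _ = ∑ l, ∑ i, c l * (ν i * s.2 l i) := Finset.sum_comm
          _ = ∑ l, c l * ∑ i, ν i * s.2 l i := by
              exact Finset.sum_congr rfl fun l _ => by rw [Finset.mul_sum]
          _ = 0 := by
              refine Finset.sum_eq_zero fun l _ => ?_
              rw [hν4 l, mul_zero]
      have b2 : ∑ i, ν i * (D i - s.1 i - ∑ l, c l * s.2 l i) =
          ∑ i, ν i * (D i - s.1 i) - ∑ i, ν i * ∑ l, c l * s.2 l i := by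
        rw [← Finset.sum_sub_distrib]
        exact Finset.sum_congr rfl fun i _ => by ring
      rw [b2, b1, sub_zero]
    rw [h1, h2]
    refine (Finset.abs_sum_le_sum_abs _ _).trans ?_
    calc ∑ i, |ν i * (D i - s.1 i - ∑ l, c l * s.2 l i)| ≤ ∑ _i : Fin m, ρ := by
          refine Finset.sum_le_sum fun i _ => ?_
          rw [abs_mul]
          calc |ν i| * |D i - s.1 i - ∑ l, c l * s.2 l i| ≤ 1 * ρ :=
                mul_le_mul (hν1 i) (hc i) (abs_nonneg _) zero_le_one
            _ = ρ := one_mul _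
      _ = m * ρ := by
          rw [Finset.sum_const, Finset.card_univ, Fintype.card_fin, nsmul_eq_mul]

/-- **Spread on point events.** -/
theorem sp_of_ncf (F : Fam m J) (hm : 2 ≤ m) (i₁ : Fin m) {w : ℕ} {A₂ A' : F.Ω → Prop}
    (hA₂ : 0 < Pe F.p A₂) (hA' : 0 < Pe F.p A') {δ ε g : ℝ}
    (hncf : NCF (Fam.sub F A₂ hA₂).p (slam (Fam.sub F A₂ hA₂) w) (Fam.pt (Fam.sub F A₂ hA₂))
      (lB (chI i₁)) δ (fun _ => ε))
    (S : (Fin m → ℤ) × (ℕ × F.ζ) → Prop) (hS : ∀ ω, A' ω ↔ A₂ ω ∧ S (Fam.pt F ω))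
    (hε : ε < 1 / 4) (hδ : m * (1 / 2 ^ ⌊g * J⌋₊) ≤ δ) (hJ : 0 < J) :
    Sp F (m - 2) (Real.log 4 / J) g A' := by
  classical
  intro B hB hPB hpl
  have hJr : (0 : ℝ) < J := by exact_mod_cast hJ
  have h4 : Real.exp (-(Real.log 4 / J * J)) = 1 / 4 := by
    have : Real.log 4 / J * J = Real.log 4 := by field_simp
    rw [this, Real.exp_neg, Real.exp_log (by norm_num), one_div]
  rw [h4] at hPB
  have hncf' : NCF (Fam.sub F A' hA').p (slam (Fam.sub F A' hA') w)
      (Fam.pt (Fam.sub F A' hA')) (lB (chI i₁)) δ (fun _ => ε) :=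
    ncf_sp (lam := slam F w) (x := Fam.pt F) (S := S) (B := lB (chI i₁)) (e := fun _ => ε)
      F.isLaw hA₂ hA' hS (fun ξ _ => le_rfl) hncf
  obtain ⟨s, hs⟩ := hpl
  choose u hu1 hu2 using fun ξ => exists_cov hm i₁ (s ξ) (1 / 2 ^ ⌊g * J⌋₊)
  set F' := Fam.sub F A' hA' with hF'
  have hq := F'.isLaw
  have hq0 := hq.nonneg
  -- the mass of `B`
  have h1 : (1 : ℝ) / 4 ≤ Pe F'.p (fun ω : F'.Ω => B (Subtype.val (p := A') ω)) := by
    have a2 : Pe F'.p (fun ω : F'.Ω => B (Subtype.val (p := A') ω)) =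
        Pe F.p (fun ω => A' ω ∧ B ω) / Pe F.p A' := by
      rw [Pe_eq (p := F'.p)]
      exact sum_sp (p := F.p) (A := A') B _ (fun ω h => if_pos h) (fun ω h => if_neg h)
    have a3 : (fun ω => A' ω ∧ B ω) = B := by
      funext ω
      exact propext ⟨fun h => h.2, fun h => ⟨hB ω h, h⟩⟩
    rw [a2, a3, le_div_iff₀ hA']
    exact hPB
  have h2 : Pe F'.p (fun ω : F'.Ω => B (Subtype.val (p := A') ω)) ≤ ε := by
    have b0 : Pe F'.p (fun ω : F'.Ω => B (Subtype.val (p := A') ω)) =
        ∑ ξ ∈ univ.image (Fam.pt F'), ∑ ω, if Fam.pt F' ω = ξ ∧ B (Subtype.val (p := A') ω) then F'.p ω else 0 := by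
      rw [Pe_eq, ← Finset.sum_fiberwise_of_maps_to (g := Fam.pt F')
        (t := univ.image (Fam.pt F'))
        (fun ω _ => Finset.mem_image_of_mem (Fam.pt F') (Finset.mem_univ ω))]
      refine Finset.sum_congr rfl fun ξ _ => ?_
      rw [Finset.sum_filter]
      refine Finset.sum_congr rfl fun ω _ => ?_
      by_cases h4 : Fam.pt F' ω = ξ <;> by_cases h5 : B (Subtype.val (p := A') ω) <;> simp [h4, h5]
    have b1 : ∀ ξ, (∑ ω, if Fam.pt F' ω = ξ ∧ B (Subtype.val (p := A') ω) then F'.p ω else 0) ≤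
        ε * law F'.p (Fam.pt F') ξ := by
      intro ξ
      by_cases hξ : law F'.p (Fam.pt F') ξ = 0
      · rw [hξ, mul_zero]
        refine le_trans (Finset.sum_le_sum fun ω _ => ?_) (le_of_eq hξ)
        by_cases h4 : Fam.pt F' ω = ξ
        · rw [if_pos h4]
          split_ifs
          exacts [le_rfl, hq0 ω]
        · rw [if_neg h4, if_neg (fun h5 => h4 h5.1)]
      · obtain ⟨ω₀, hω₀, hω₀ξ⟩ : ∃ ω₀, 0 < F'.p ω₀ ∧ Fam.pt F' ω₀ = ξ := by
          by_contra hcon
          apply hξ
          unfold law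
          refine Finset.sum_eq_zero fun ω _ => ?_
          split_ifs with h5
          · by_contra h6
            exact hcon ⟨ω, lt_of_le_of_ne (hq0 ω) (Ne.symm h6), h5⟩
          · rfl
        have c1 := hncf' ω₀ hω₀ (u ξ) (hu1 ξ)
        rw [hω₀ξ] at c1
        refine le_trans (Finset.sum_le_sum fun ω _ => ?_) c1
        by_cases h5 : Fam.pt F' ω = ξ ∧ B (Subtype.val (p := A') ω)
        · rw [if_pos h5, if_pos]
          refine ⟨h5.1, ?_⟩
          have c2 := hs (Subtype.val (p := A') ω) h5.2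
          have c3 : Fam.pt F (Subtype.val (p := A') ω) = ξ := h5.1
          rw [c3] at c2
          have c4 := hu2 ξ (F.d (Subtype.val (p := A') ω)) c2
          refine le_trans (le_of_eq ?_) (c4.trans hδ)
          congr 1
          refine Finset.sum_congr rfl fun i _ => ?_
          congr 1
          change (chI i₁ (some i)).elim 1 (fun i => F.d (Subtype.val (p := A') ω) i) = _
          unfold chI
          by_cases hi : i = i₁
          · simp [hi]
          · simp [hi]
        · rw [if_neg h5]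
          split_ifs
          exacts [hq0 ω, le_rfl]
    have b2 : ∑ ξ ∈ univ.image (Fam.pt F'), law F'.p (Fam.pt F') ξ = 1 := by
      have := sum_mul_eq_sum_image F'.p (Fam.pt F') (fun _ => (1 : ℝ))
      simp only [mul_one] at this
      rw [← this]
      exact hq.sum_one
    rw [b0]
    calc _ ≤ ∑ ξ ∈ univ.image (Fam.pt F'), ε * law F'.p (Fam.pt F') ξ :=
          Finset.sum_le_sum fun ξ _ => b1 ξ
      _ = ε := by rw [← Finset.mul_sum, b2, mul_one]
  linarith

end Pool.STPA
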