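import Pool.Agent.H37.M2C.Main

/-!
# M2C for classes
-/

set_option autoImplicit false

namespace Pool.STPA

open Finset Real
open Pool.Agent.H49.Ent Pool.Agent.H32.Dense Pool.STK Pool.KA Pool.KSAT Pool.K2S Pool.KS3
open Pool.KAL Pool.PB Pool.KST Pool.FLF

/-- **M2C**: from closed labels to polynomial labels, in a class with spread fans. -/
theorem m2c_thm (hREG : Pool.KBX.REGStmt) {m : ℕ} (hm : 2 ≤ m) (S : FCl m)
    (hS : SPS S (m - 2)) : M2C S := by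
  intro h₁ X E hh₁ hX hE
  refine ⟨16 * E + 3, fun K hK => ⟨1, fun N hN d hNd i₁ i p ρ hip hpρ hρ κ' hκ' => ?_⟩⟩
  obtain ⟨g, hg, hev⟩ := m2_event hREG hm hE hK hh₁ hX hκ'
  obtain ⟨ψ, hψ, hsp⟩ := hS g hg
  have hd : 0 < d := by
    rcases Nat.eq_zero_or_pos d with h0 | h0
    · rw [h0, Nat.mul_zero] at hNd
      omega
    · exact h0
  obtain ⟨τ, hτ, J₀, h⟩ := hev ψ hψ N d hd hNd
  have hst : Clg S (fun J F A => S.St τ F A) := Clg.of hτ 0 fun J _ F A hA => hA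
  refine Clg.mono (J₂ := J₀) (hst.and hsp) ?_
  rintro J hJ F A ⟨h1, h2⟩ hCh hCls
  exact h J hJ F i₁ A i p ρ hip hpρ hρ (S.tr h1.1) (S.tm h1.1) (S.rb h1.1) h1.2 hCh h2 hCls

end Pool.STPA
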