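import Pool.Agent.H37.STPA.C1
import Pool.Agent.H84.KBOX.StmtsU
import Pool.Agent.H78.GLM.Main
import Pool.Agent.H65.OVN.MV

/-!
# From the graph of a leaf in a cell to a polynomial in the coordinates of space
-/

set_option autoImplicit false

namespace Pool.STPA

open Finset Real
open Pool.Agent.H49.Ent Pool.Agent.H32.Dense Pool.STK Pool.KA Pool.KSAT Pool.K2S Pool.KS3
open Pool.KAL Pool.PB Pool.KST Pool.FLF

variable {m J : ℕ}

/-- The graph over the unit cell, in the coordinates of space. -/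
noncomputable def unG (i₁ : Fin m) (w : ℕ) (c : ℕ × (Fin m → ℤ)) (G : MvPolynomial (Fin m) ℝ) :
    MvPolynomial (Fin m) ℝ := rsG G (fun j => -(2 ^ w * crI i₁ w c j)) (-(c.2 i₁ : ℝ)) (2 ^ w)

lemma eval_unG (i₁ : Fin m) (w : ℕ) (c : ℕ × (Fin m → ℤ)) (G : MvPolynomial (Fin m) ℝ)
    (y : Fin m → ℝ) : MvPolynomial.eval y (unG i₁ w c G) =
      (MvPolynomial.eval (fun j => 2 ^ w * (y j - crI i₁ w c j)) G + c.2 i₁) / 2 ^ w := by
  unfold unG
  rw [eval_rsG, sub_neg_eq_add]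
  have h1 : (fun i => -(2 ^ w * crI i₁ w c i) + 2 ^ w * y i) =
      fun j => 2 ^ w * (y j - crI i₁ w c j) := by
    funext j
    ring
  rw [h1]

lemma deg_unG (i₁ : Fin m) (w : ℕ) (c : ℕ × (Fin m → ℤ)) {G : MvPolynomial (Fin m) ℝ} {K : ℕ}
    (hG : G.totalDegree ≤ K) : (unG i₁ w c G).totalDegree ≤ K := by
  unfold unG rsG
  refine (MvPolynomial.totalDegree_mul _ _).trans ?_
  rw [MvPolynomial.totalDegree_C, zero_add]
  refine (MvPolynomial.totalDegree_sub _ _).trans (max_le ?_ ?_)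
  · exact (totalDegree_shf_le _ _ _).trans hG
  · rw [MvPolynomial.totalDegree_C]
    exact Nat.zero_le _

lemma pderiv_unG (i₁ : Fin m) (w : ℕ) (c : ℕ × (Fin m → ℤ)) (G : MvPolynomial (Fin m) ℝ)
    (y : Fin m → ℝ) (j : Fin m) : MvPolynomial.eval y (MvPolynomial.pderiv j (unG i₁ w c G)) =
      MvPolynomial.eval (fun j => 2 ^ w * (y j - crI i₁ w c j)) (MvPolynomial.pderiv j G) := by
  have hw : (2 : ℝ) ^ w ≠ 0 := by positivity
  unfold unG rsG
  rw [Derivation.leibniz, MvPolynomial.pderiv_C, smul_zero, add_zero, map_sub,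
    MvPolynomial.pderiv_C, sub_zero, smul_eq_mul, map_mul, MvPolynomial.eval_C, pderiv_shf,
    map_mul, MvPolynomial.eval_C, eval_shf]
  have h1 : (fun i => -(2 ^ w * crI i₁ w c i) + 2 ^ w * y i) =
      fun j => 2 ^ w * (y j - crI i₁ w c j) := by
    funext j
    ring
  rw [h1]
  field_simp

/-- The position of the base point in the cell. -/
lemma bp_rp (F : Fam m J) (i₁ : Fin m) {w L P : ℕ} (hwL : w + L = P) (hP : P ≤ J) (ω : F.Ω)
    (j : Fin m) :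
    |2 ^ w * (bp F i₁ ω j - crI i₁ w (F.T1 w ω, F.X w ω) j) -
      rp (2 ^ L) (ppos L (chI i₁)) (trp F P ω) (some j)| ≤ 1 / 2 ^ L := by
  have h1 := base_cell F i₁ hwL hP ω j
  have h2 := bp_cell F i₁ hP ω j
  have hw : (0 : ℝ) < 2 ^ w := by positivity
  have hP2 : (2 : ℝ) ^ P = 2 ^ w * 2 ^ L := by rw [← hwL, pow_add]
  have h3 : 2 ^ w * (bp F i₁ ω j - crI i₁ w (F.T1 w ω, F.X w ω) j) -
      rp (2 ^ L) (ppos L (chI i₁)) (trp F P ω) (some j) =
      2 ^ w * (bp F i₁ ω j - crI i₁ P (F.T1 P ω, F.X P ω) j) := by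
    rw [← h1]
    field_simp
    ring
  rw [h3, abs_of_nonneg (mul_nonneg hw.le (by linarith [h2.1]))]
  calc 2 ^ w * (bp F i₁ ω j - crI i₁ P (F.T1 P ω, F.X P ω) j) ≤ 2 ^ w * (1 / 2 ^ P) :=
        mul_le_mul_of_nonneg_left (by linarith [h2.2]) hw.le
    _ = 1 / 2 ^ L := by
        rw [hP2]
        field_simp

/-- The corner of the small cell. -/
lemma rp_cc {ζ : Type} (i₁ : Fin m) {L u : ℕ} (hu : u ≤ L) (ξ : (Fin m → ℤ) × (ℕ × ζ))
    (j : Fin m) :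
    |rp (2 ^ L) (ppos L (chI i₁)) ξ (some j) - Pool.KBX.cc L u (ppos L (chI i₁)) ξ j| ≤
      1 / 2 ^ u := by
  unfold Pool.KBX.cc crn cel rp
  have hL : (2 : ℝ) ^ L = 2 ^ u * 2 ^ (L - u) := by
    rw [← pow_add]; congr 1; omega
  have hM : ((2 ^ L : ℕ) : ℝ) = 2 ^ L := by push_cast; rfl
  have h1 := Nat.div_add_mod' (ppos L (chI i₁) ξ (some j)) (2 ^ (L - u))
  have h2 : ppos L (chI i₁) ξ (some j) % 2 ^ (L - u) < 2 ^ (L - u) :=
    Nat.mod_lt _ (Nat.two_pow_pos _)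
  have h3 : (ppos L (chI i₁) ξ (some j) : ℝ) -
      ((ppos L (chI i₁) ξ (some j) / 2 ^ (L - u) * 2 ^ (L - u) : ℕ) : ℝ) =
      ((ppos L (chI i₁) ξ (some j) % 2 ^ (L - u) : ℕ) : ℝ) := by
    have : (ppos L (chI i₁) ξ (some j) : ℝ) =
        ((ppos L (chI i₁) ξ (some j) / 2 ^ (L - u) * 2 ^ (L - u) : ℕ) : ℝ) +
        ((ppos L (chI i₁) ξ (some j) % 2 ^ (L - u) : ℕ) : ℝ) := by
      exact_mod_cast h1.symm
    linarith
  rw [← sub_div, h3, hM, abs_of_nonneg (by positivity), hL, div_le_div_iff₀ (by positivity)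
    (by positivity)]
  have h4 : ((ppos L (chI i₁) ξ (some j) % 2 ^ (L - u) : ℕ) : ℝ) ≤ 2 ^ (L - u) := by
    exact_mod_cast h2.le
  nlinarith [show (0 : ℝ) < 2 ^ u by positivity]

/-- **The polynomial of the small cell in the coordinates of space.** -/
theorem un_near (F : Fam m J) (i₁ : Fin m) {w L P u : ℕ} (hwL : w + L = P) (hP : P ≤ J)
    (hu : u + 1 ≤ L) {G : MvPolynomial (Fin m) ℝ} {S ε : ℝ} (hS : 0 ≤ S) (ω : F.Ω)
    (h0 : |rp (2 ^ L) (ppos L (chI i₁)) (trp F P ω) none -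
      MvPolynomial.eval (fun i => rp (2 ^ L) (ppos L (chI i₁)) (trp F P ω) (some i)) G| ≤ ε)
    (hD : Pool.KBX.D1 G (Pool.KBX.cc L u (ppos L (chI i₁)) (trp F P ω)) (1 / 2 ^ u) S) :
    |F.x ω i₁ - MvPolynomial.eval (bp F i₁ ω) (unG i₁ w (F.T1 w ω, F.X w ω) G)| ≤
      (ε + (1 + m * S) / 2 ^ L) / 2 ^ w ∧
    ∀ b : Fin m → ℝ, (∀ j, |b j - bp F i₁ ω j| ≤ 1 / 2 ^ (w + u + 1)) → ∀ j,
      |MvPolynomial.eval b (MvPolynomial.pderiv j (unG i₁ w (F.T1 w ω, F.X w ω) G))| ≤ S := by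
  set c : ℕ × (Fin m → ℤ) := (F.T1 w ω, F.X w ω) with hc
  have hw : (0 : ℝ) < 2 ^ w := by positivity
  have hP2 : (2 : ℝ) ^ P = 2 ^ w * 2 ^ L := by rw [← hwL, pow_add]
  have hLu : (1 : ℝ) / 2 ^ L ≤ 1 / 2 ^ (u + 1) :=
    one_div_le_one_div_of_le (by positivity) (pow_le_pow_right₀ (by norm_num) hu)
  have hu2 : (1 : ℝ) / 2 ^ (u + 1) = 1 / 2 ^ u / 2 := by
    rw [pow_succ]
    field_simp
  have hup : (0 : ℝ) < 1 / 2 ^ u := by positivity
  constructor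
  · rw [eval_unG]
    set y₀ : Fin m → ℝ := fun j => 2 ^ w * (bp F i₁ ω j - crI i₁ w c j) with hy₀
    set y₁ : Fin m → ℝ := fun i => rp (2 ^ L) (ppos L (chI i₁)) (trp F P ω) (some i) with hy₁
    have h1 : ∀ j, |y₀ j - y₁ j| ≤ 1 / 2 ^ L := fun j => bp_rp F i₁ hwL hP ω j
    have h2 : |MvPolynomial.eval y₀ G - MvPolynomial.eval y₁ G| ≤ S * ∑ j, |y₀ j - y₁ j| := by
      refine Pool.OVN.mean_value G y₁ y₀ S fun t ht0 ht1 j => hD _ (fun i => ?_) j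
      have e1 := rp_cc i₁ (u := u) (L := L) (by omega) (trp F P ω) i
      have e2 := h1 i
      have e3 : y₁ i + t * (y₀ i - y₁ i) - Pool.KBX.cc L u (ppos L (chI i₁)) (trp F P ω) i =
          (y₁ i - Pool.KBX.cc L u (ppos L (chI i₁)) (trp F P ω) i) + t * (y₀ i - y₁ i) := by ring
      rw [e3]
      refine (abs_add_le _ _).trans ?_
      rw [abs_mul, abs_of_nonneg ht0]
      have e4 : t * |y₀ i - y₁ i| ≤ 1 * (1 / 2 ^ L) :=
        mul_le_mul ht1 e2 (abs_nonneg _) zero_le_one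
      have e5 : |y₁ i - Pool.KBX.cc L u (ppos L (chI i₁)) (trp F P ω) i| ≤ 1 / 2 ^ u := e1
      linarith
    have h3 : ∑ j, |y₀ j - y₁ j| ≤ m * (1 / 2 ^ L) := by
      calc ∑ j, |y₀ j - y₁ j| ≤ ∑ _j : Fin m, (1 : ℝ) / 2 ^ L := Finset.sum_le_sum fun j _ => h1 j
        _ = m * (1 / 2 ^ L) := by
            rw [Finset.sum_const, Finset.card_univ, Fintype.card_fin, nsmul_eq_mul]
    have h4 := pas_cell F i₁ hwL ω
    -- the passive coordinate
    have h5 : |2 ^ w * F.x ω i₁ - c.2 i₁ - rp (2 ^ L) (ppos L (chI i₁)) (trp F P ω) none| ≤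
        1 / 2 ^ L := by
      have e1 : (F.X P ω i₁ : ℝ) ≤ 2 ^ P * F.x ω i₁ := Int.floor_le _
      have e2 : 2 ^ P * F.x ω i₁ < (F.X P ω i₁ : ℝ) + 1 := Int.lt_floor_add_one _
      have e3 : 2 ^ w * F.x ω i₁ - c.2 i₁ - rp (2 ^ L) (ppos L (chI i₁)) (trp F P ω) none =
          2 ^ w * (F.x ω i₁ - (F.X P ω i₁ : ℝ) / 2 ^ P) := by
        rw [← h4, hc]
        field_simp
        ring
      have e4 : F.x ω i₁ - (F.X P ω i₁ : ℝ) / 2 ^ P =
          (2 ^ P * F.x ω i₁ - F.X P ω i₁) / 2 ^ P := by field_simp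
      rw [e3, e4, abs_of_nonneg (mul_nonneg hw.le (div_nonneg (by linarith) (by positivity))),
        hP2]
      have e5 : 2 ^ w * ((2 ^ w * 2 ^ L * F.x ω i₁ - F.X P ω i₁) / (2 ^ w * 2 ^ L)) =
          (2 ^ w * 2 ^ L * F.x ω i₁ - F.X P ω i₁) / 2 ^ L := by field_simp
      rw [e5]
      exact div_le_div_of_nonneg_right (by rw [← hP2]; linarith) (by positivity)
    have h6 : F.x ω i₁ - (MvPolynomial.eval y₀ G + c.2 i₁) / 2 ^ w =
        ((2 ^ w * F.x ω i₁ - c.2 i₁ - rp (2 ^ L) (ppos L (chI i₁)) (trp F P ω) none) +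
        (rp (2 ^ L) (ppos L (chI i₁)) (trp F P ω) none - MvPolynomial.eval y₁ G) -
        (MvPolynomial.eval y₀ G - MvPolynomial.eval y₁ G)) / 2 ^ w := by
      field_simp
      ring
    rw [h6, abs_div, abs_of_pos hw]
    refine div_le_div_of_nonneg_right ?_ hw.le
    refine (abs_sub _ _).trans ?_
    have h7 := abs_add_le (2 ^ w * F.x ω i₁ - c.2 i₁ -
      rp (2 ^ L) (ppos L (chI i₁)) (trp F P ω) none)
      (rp (2 ^ L) (ppos L (chI i₁)) (trp F P ω) none - MvPolynomial.eval y₁ G)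
    have h8 : S * ∑ j, |y₀ j - y₁ j| ≤ S * (m * (1 / 2 ^ L)) := mul_le_mul_of_nonneg_left h3 hS
    have h9 : (1 + m * S) / (2 : ℝ) ^ L = 1 / 2 ^ L + S * (m * (1 / 2 ^ L)) := by ring
    rw [h9]
    linarith
  · intro b hb j
    rw [pderiv_unG]
    refine hD _ (fun i => ?_) j
    have e1 := rp_cc i₁ (u := u) (L := L) (by omega) (trp F P ω) i
    have e2 := bp_rp F i₁ hwL hP ω i
    have e3 := hb i
    have e4 : 2 ^ w * (b i - crI i₁ w c i) - Pool.KBX.cc L u (ppos L (chI i₁)) (trp F P ω) i =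
        2 ^ w * (b i - bp F i₁ ω i) +
        (2 ^ w * (bp F i₁ ω i - crI i₁ w c i) -
          rp (2 ^ L) (ppos L (chI i₁)) (trp F P ω) (some i)) +
        (rp (2 ^ L) (ppos L (chI i₁)) (trp F P ω) (some i) -
          Pool.KBX.cc L u (ppos L (chI i₁)) (trp F P ω) i) := by ring
    rw [e4]
    refine (abs_add_three _ _ _).trans ?_
    rw [abs_mul, abs_of_pos hw]
    have e5 : 2 ^ w * |b i - bp F i₁ ω i| ≤ 1 / 2 ^ (u + 1) := by
      calc 2 ^ w * |b i - bp F i₁ ω i| ≤ 2 ^ w * (1 / 2 ^ (w + u + 1)) :=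
            mul_le_mul_of_nonneg_left e3 hw.le
        _ = 1 / 2 ^ (u + 1) := by
            rw [add_assoc, pow_add]
            field_simp
    linarith

end Pool.STPA
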